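import Pool.Agent.Lib.MP_d3d358_ag.Th.Eta
import Pool.Agent.Lib.MP_d3d358_ag.Var.Grp

/-! The data of Kummer type: a polarised lattice in `ℂ²`, the lattice of triples with sum zero in
`V = ℂ⁴`, and the pair of dual lattices of type `(1, 5)`. -/

set_option autoImplicit false

namespace Pool.Agent.Lib.MP_d3d358_ag.G

open Pool.Agent.Lib.MP_d3d358_ag.Th
open Pool.Agent.Lib.MP_d3d358_ag.Var (V chi gv gl chi_add chi_zero chi_neg chi_quad chi_cube
  chi_mul_neg conj_chi gv_r gv_sr gv_mul gv_one gl_apply)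

noncomputable section

/-- `1 / √3` -/
def s3 : ℂ := ((Real.sqrt 3)⁻¹ : ℝ)

theorem s3_sq : 3 * (s3 * s3) = 1 := by
  rw [s3, ← Complex.ofReal_mul, ← mul_inv, Real.mul_self_sqrt (by norm_num)]
  push_cast; norm_num

theorem conj_s3 : (starRingEnd ℂ) s3 = s3 := Complex.conj_ofReal _

theorem chi_one_quad : chi 1 ^ 2 + chi 1 + 1 = 0 := chi_quad (by decide)

theorem chi_two : chi 2 = chi 1 ^ 2 := by rw [sq, ← chi_add]; rfl

theorem chi_neg_one : chi (-1) = chi 1 ^ 2 := chi_neg 1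

theorem chi_neg_two : chi (-2) = chi 1 := rfl

/-- the point number `k` of the triple `(a₀, a₁, a₂)` with sum zero given by `z` -/
def crd (k : ZMod 3) : V →ₗ[ℂ] (Fin 2 → ℂ) where
  toFun z := ![s3 * (chi (-k) * z 0 + chi k * z 2), s3 * (chi (-k) * z 1 + chi k * z 3)]
  map_add' z w := by funext i; fin_cases i <;> simp <;> ring
  map_smul' c z := by funext i; fin_cases i <;> simp <;> ring

theorem crd_zero (k : ZMod 3) (z : V) : crd k z 0 = s3 * (chi (-k) * z 0 + chi k * z 2) := rfl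

theorem crd_one (k : ZMod 3) (z : V) : crd k z 1 = s3 * (chi (-k) * z 1 + chi k * z 3) := rfl

theorem crd_sum (z : V) : crd 0 z + crd 1 z + crd 2 z = 0 := by
  have h := chi_one_quad
  funext i
  fin_cases i
  · change crd 0 z 0 + crd 1 z 0 + crd 2 z 0 = 0
    simp only [crd_zero, neg_zero, chi_zero, chi_two, chi_neg_one, chi_neg_two]
    linear_combination s3 * (z 0 + z 2) * h
  · change crd 0 z 1 + crd 1 z 1 + crd 2 z 1 = 0
    simp only [crd_one, neg_zero, chi_zero, chi_two, chi_neg_one, chi_neg_two]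
    linear_combination s3 * (z 1 + z 3) * h

theorem crd_two (z : V) : crd 2 z = -crd 0 z - crd 1 z := by
  rw [eq_neg_of_add_eq_zero_right (crd_sum z)]; abel

theorem crd_r (k m : ZMod 3) (z : V) : crd k (gv (.r m) z) = crd (k - m) z := by
  funext i
  fin_cases i <;>
    simp [crd, gv_r, ← mul_assoc, ← chi_add, sub_eq_add_neg, add_comm]

theorem crd_sr (k m : ZMod 3) (z : V) : crd k (gv (.sr m) z) = crd (-k - m) z := by
  funext i
  fin_cases i <;>
    simp [crd, gv_sr, ← mul_assoc, ← chi_add, sub_eq_add_neg, add_comm]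

/-- the permutation of the three points given by `g` -/
def prm : Var.G → ZMod 3 → ZMod 3
  | .r m, k => k - m
  | .sr m, k => -k - m

theorem crd_gv (k : ZMod 3) (g : Var.G) (z : V) : crd k (gv g z) = crd (prm g k) z := by
  cases g
  exacts [crd_r _ _ _, crd_sr _ _ _]

theorem eta_crd (z w : V) : eta z w =
    eta (crd 0 z) (crd 0 w) + eta (crd 1 z) (crd 1 w) + eta (crd 2 z) (crd 2 w) := by
  have h := chi_one_quad
  have h3 := chi_cube 1
  have hs := s3_sq
  simp only [eta, Fin.sum_univ_four, Fin.sum_univ_two, crd_zero, crd_one, map_mul, map_add,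
    conj_s3, conj_chi, neg_zero, chi_zero, chi_two, chi_neg_one, chi_neg_two, map_one,
    map_pow]
  generalize (starRingEnd ℂ) (w 0) = a, (starRingEnd ℂ) (w 1) = b, (starRingEnd ℂ) (w 2) = c,
    (starRingEnd ℂ) (w 3) = d, chi 1 = o at h h3 ⊢
  linear_combination (-(z 0 * a + z 1 * b + z 2 * c + z 3 * d)) * hs
    - s3 * s3 * (z 0 * c + z 1 * d + z 2 * a + z 3 * b) * h
    - s3 * s3 * ((z 0 * a + z 1 * b) * (2 + o ^ 3) + (z 2 * c + z 3 * d) * (2 + o ^ 3)
      + (z 0 * c + z 1 * d) * (o + o ^ 2) + (z 2 * a + z 3 * b) * (o + o ^ 2)) * h3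

theorem alt_crd (z w : V) : alt z w =
    alt (crd 0 z) (crd 0 w) + alt (crd 1 z) (crd 1 w) + alt (crd 2 z) (crd 2 w) := by
  rw [alt, eta_crd, Complex.add_im, Complex.add_im]; rfl

/-- the point of `V` given by the triple `(a, b, -a - b)` -/
def tri (a b : Fin 2 → ℂ) : V :=
  ![s3 * ((1 - chi 2) * a 0 + (chi 1 - chi 2) * b 0), s3 * ((1 - chi 2) * a 1 + (chi 1 - chi 2) * b 1),
    s3 * ((1 - chi 1) * a 0 + (chi 2 - chi 1) * b 0), s3 * ((1 - chi 1) * a 1 + (chi 2 - chi 1) * b 1)]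

theorem crd_tri_zero (a b : Fin 2 → ℂ) : crd 0 (tri a b) = a := by
  have h := chi_one_quad
  have hs := s3_sq
  funext i
  fin_cases i
  · change crd 0 (tri a b) 0 = a 0
    simp [crd_zero, tri, chi_two]
    linear_combination a 0 * hs - s3 * s3 * a 0 * h
  · change crd 0 (tri a b) 1 = a 1
    simp [crd_one, tri, chi_two]
    linear_combination a 1 * hs - s3 * s3 * a 1 * h

theorem crd_tri_one (a b : Fin 2 → ℂ) : crd 1 (tri a b) = b := by
  have h := chi_one_quad
  have h3 := chi_cube 1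
  have hs := s3_sq
  funext i
  fin_cases i
  · change crd 1 (tri a b) 0 = b 0
    simp [crd_zero, tri, chi_two, chi_neg_one]
    linear_combination b 0 * hs - s3 * s3 * b 0 * h
      + s3 * s3 * (2 * b 0 - chi 1 * (a 0 + b 0)) * h3
  · change crd 1 (tri a b) 1 = b 1
    simp [crd_one, tri, chi_two, chi_neg_one]
    linear_combination b 1 * hs - s3 * s3 * b 1 * h
      + s3 * s3 * (2 * b 1 - chi 1 * (a 1 + b 1)) * h3

theorem tri_crd (z : V) : tri (crd 0 z) (crd 1 z) = z := by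
  have h := chi_one_quad
  have h3 := chi_cube 1
  have hs := s3_sq
  funext i
  fin_cases i <;> simp [crd_zero, crd_one, tri, chi_two, chi_neg_one]
  · linear_combination z 0 * hs - s3 * s3 * z 0 * h + s3 * s3 * (z 0 * (1 - chi 1) - z 2) * h3
  · linear_combination z 1 * hs - s3 * s3 * z 1 * h + s3 * s3 * (z 1 * (1 - chi 1) - z 3) * h3
  · linear_combination z 2 * hs - s3 * s3 * z 2 * h + s3 * s3 * (z 0 * (chi 1 - 1) + z 2) * h3
  · linear_combination z 3 * hs - s3 * s3 * z 3 * h + s3 * s3 * (z 1 * (chi 1 - 1) + z 3) * h3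

/-- `V = ℂ² × ℂ²` by the first two points -/
def crdE : V ≃ₗ[ℂ] (Fin 2 → ℂ) × (Fin 2 → ℂ) where
  toLinearMap := (crd 0).prod (crd 1)
  invFun p := tri p.1 p.2
  left_inv := tri_crd
  right_inv p := Prod.ext (crd_tri_zero p.1 p.2) (crd_tri_one p.1 p.2)

@[simp] theorem crdE_apply (z : V) : crdE z = (crd 0 z, crd 1 z) := rfl

@[simp] theorem crdE_symm (a b : Fin 2 → ℂ) : crdE.symm (a, b) = tri a b := rfl

/-- a lattice in `ℂ²` on which `k * alt` is even -/
structure Sf extends Lat 2 where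
  k : ℕ
  k_pos : 0 < k
  k_even : ∀ l ∈ toLat.L, ∀ l' ∈ toLat.L, ∃ m : ℤ, k * alt l l' = 2 * m

/-- the lattice of triples with sum zero; the basis is `tri (b i) 0`, then `tri 0 (b i)` -/
def lat3 (A : Lat 2) : Lat 4 where
  bas := ((A.bas.prod A.bas).map (crdE.restrictScalars ℝ).symm).reindex finSumFinEquiv

theorem lat3_inl (A : Lat 2) (i : Fin 4) :
    (lat3 A).bas (finSumFinEquiv (m := 4) (n := 4) (.inl i)) = tri (A.bas i) 0 := by
  simp [lat3]

theorem lat3_inr (A : Lat 2) (i : Fin 4) :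
    (lat3 A).bas (finSumFinEquiv (m := 4) (n := 4) (.inr i)) = tri 0 (A.bas i) := by
  simp [lat3]

theorem bas_mem {n : ℕ} (A : Lat n) (i : Fin (2 * n)) : A.bas i ∈ A.L :=
  Submodule.subset_span ⟨i, rfl⟩

theorem tri_mem {A : Lat 2} {a b : Fin 2 → ℂ} (ha : a ∈ A.L) (hb : b ∈ A.L) :
    tri a b ∈ (lat3 A).L := by
  let f : (Fin 2 → ℂ) × (Fin 2 → ℂ) →ₗ[ℤ] V := crdE.symm.toLinearMap.restrictScalars ℤ
  have h1 : A.L ≤ (lat3 A).L.comap (f ∘ₗ LinearMap.inl ℤ _ _) :=
    Submodule.span_le.2 <| by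
      rintro _ ⟨i, rfl⟩
      exact Submodule.subset_span ⟨_, lat3_inl A i⟩
  have h2 : A.L ≤ (lat3 A).L.comap (f ∘ₗ LinearMap.inr ℤ _ _) :=
    Submodule.span_le.2 <| by
      rintro _ ⟨i, rfl⟩
      exact Submodule.subset_span ⟨_, lat3_inr A i⟩
  have e : tri a b = f (a, 0) + f (0, b) := by rw [← map_add]; simp [f]
  rw [e]
  exact add_mem (h1 ha) (h2 hb)

theorem mem_lat3' {A : Lat 2} {z : V} : z ∈ (lat3 A).L ↔ crd 0 z ∈ A.L ∧ crd 1 z ∈ A.L := by
  refine ⟨fun hz => ?_, fun h => tri_crd z ▸ tri_mem h.1 h.2⟩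
  have : (lat3 A).L ≤ A.L.comap ((crd 0).restrictScalars ℤ) ⊓
      A.L.comap ((crd 1).restrictScalars ℤ) := Submodule.span_le.2 <| by
    rintro _ ⟨j, rfl⟩
    obtain ⟨i | i, rfl⟩ := (finSumFinEquiv (m := 4) (n := 4)).surjective j
    · rw [lat3_inl]
      exact ⟨by simpa [crd_tri_zero] using bas_mem A i,
        by simp [crd_tri_one]⟩
    · rw [lat3_inr]
      exact ⟨by simp [crd_tri_zero],
        by simpa [crd_tri_one] using bas_mem A i⟩
  exact this hz

theorem mem_lat3 {A : Lat 2} {z : V} : z ∈ (lat3 A).L ↔ ∀ k, crd k z ∈ A.L := by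
  refine ⟨fun hz k => ?_, fun h => mem_lat3'.2 ⟨h 0, h 1⟩⟩
  obtain ⟨h0, h1⟩ := mem_lat3'.1 hz
  have : k = 0 ∨ k = 1 ∨ k = 2 := by revert k; decide
  rcases this with rfl | rfl | rfl
  exacts [h0, h1, crd_two z ▸ sub_mem (neg_mem h0) h1]

/-- the action of `S₃` by linear automorphisms -/
def actV : Var.G →* (V ≃ₗ[ℂ] V) where
  toFun g := { gl g with
    invFun := gv g⁻¹
    left_inv := Var.gv_inv_gv g
    right_inv := Var.gv_gv_inv g }
  map_one' := LinearEquiv.ext gv_one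
  map_mul' g h := LinearEquiv.ext (gv_mul g h)

@[simp] theorem actV_apply (g : Var.G) (z : V) : actV g z = gv g z := rfl

/-- the crystallographic datum of Kummer type -/
@[reducible] def Sf.cr (A : Sf) : Cr 4 where
  toLat := lat3 A.toLat
  G := Var.G
  act := actV
  eta_act := Var.eta_gv
  act_mem g l hl := mem_lat3.2 fun k => by
    rw [actV_apply, crd_gv]; exact mem_lat3.1 hl _
  k := A.k
  k_pos := A.k_pos
  k_even l hl l' hl' := by
    choose m hm using fun k => A.k_even _ (mem_lat3.1 hl k) _ (mem_lat3.1 hl' k)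
    exact ⟨m 0 + m 1 + m 2, by
      rw [alt_crd, mul_add, mul_add, hm, hm, hm]; push_cast; ring⟩

/-- the same lattice with the level multiplied by `a + 1` -/
def Sf.up (A : Sf) (a : ℕ) : Sf where
  toLat := A.toLat
  k := (a + 1) * A.k
  k_pos := Nat.mul_pos a.succ_pos A.k_pos
  k_even l hl l' hl' := by
    obtain ⟨m, hm⟩ := A.k_even l hl l' hl'
    exact ⟨(a + 1) * m, by push_cast; rw [mul_assoc, hm]; ring⟩

/-- `A` has type `(1, 5)` and `B` is the dual lattice with the dual basis -/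
structure Dual (A B : Lat 2) : Prop where
  dual : ∀ i j : Fin 4, alt (A.bas i) (B.bas j) = if i = j then 1 else 0
  e0 : A.bas (0 : Fin 4) = B.bas (1 : Fin 4)
  e1 : A.bas (1 : Fin 4) = -B.bas (0 : Fin 4)
  e2 : A.bas (2 : Fin 4) = (5 : ℝ) • B.bas (3 : Fin 4)
  e3 : A.bas (3 : Fin 4) = (-5 : ℝ) • B.bas (2 : Fin 4)

/-- the period matrix: the columns are the basis vectors -/
def per (A : Lat 2) : Matrix (Fin 2) (Fin 4) ℂ := Matrix.of fun a i => A.bas i a

end

end Pool.Agent.Lib.MP_d3d358_ag.G
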