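import Pool.Agent.Lib.MP_d3d358_ag.AS.Defs
import Pool.Agent.Lib.MP_cd184e_ag.B.Stmt
import Pool.Agent.Lib.MP_9ff3e7_ag.F.Defs

/-! The notions of the statement: hyper-Kaehler fourfolds, periods, derived equivalence. -/

set_option autoImplicit false

namespace Pool.Agent.Lib.MP_d3d358_ag.G

open CategoryTheory AlgebraicGeometry
open Pool.Agent.Lib.MP_9ff3e7_ag.F Pool.Agent.Lib.MP_cd184e_ag.B Pool.Agent.Lib.MP_d3d358_ag.AS

noncomputable section

section module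

variable {K M : Type} [Field K] [Algebra ℂ K] [AddCommGroup M] [Module K M] (D : K → M)

/-- the sums of the forms `r • D f₁ ∧ ⋯ ∧ D fₙ` with `r` and all `fᵢ` in `R` -/
def st (n : ℕ) (R : Subalgebra ℂ K) : AddSubgroup (ExteriorAlgebra K M) :=
  AddSubgroup.closure {ω | ∃ r ∈ R, ∃ f : Fin n → K, (∀ i, f i ∈ R) ∧
    ω = r • ExteriorAlgebra.ιMulti K n fun i => D (f i)}

/-- `σ` is a regular two form, spans the regular two forms, and `σ ∧ σ` generates the four forms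
at every point -/
def SympM {P : Type} (R : P → Subalgebra ℂ K) (σ : ExteriorAlgebra K M) : Prop :=
  (∀ p, σ ∈ st D 2 (R p)) ∧
    (∀ τ, (∀ p, τ ∈ st D 2 (R p)) → ∃ c : ℂ, τ = algebraMap ℂ K c • σ) ∧
    ∀ p, ∀ ω ∈ st D 4 (R p), ∃ r ∈ R p, ω = r • (σ * σ)

/-- the Jacobian determinant of two complex functions on the plane -/
def jac (F G : ℝ × ℝ → ℂ) (u : ℝ × ℝ) : ℂ :=
  fderiv ℝ F u (1, 0) * fderiv ℝ G u (0, 1) - fderiv ℝ F u (0, 1) * fderiv ℝ G u (1, 0)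

/-- `σ = ∑ y₀ D y₁ ∧ D y₂` and `w = ∑ F₀ jac F₁ F₂` at `u`, where `F` is the function of `y` -/
def DensM (V : K → (ℝ × ℝ → ℂ) → Prop) (σ : ExteriorAlgebra K M) (u : ℝ × ℝ) (w : ℂ) : Prop :=
  ∃ (k : ℕ) (y : Fin k → Fin 3 → K) (F : Fin k → Fin 3 → ℝ × ℝ → ℂ), (∀ i t, V (y i t) (F i t)) ∧
    σ = ∑ i, y i 0 • ExteriorAlgebra.ιMulti K 2 ![D (y i 1), D (y i 2)] ∧
    w = ∑ i, F i 0 u * jac (F i 1) (F i 2) u

end module

section field

variable (K : Type) [Field K] [Algebra ℂ K]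

/-- rational differential forms -/
def Form : Type := ExteriorAlgebra K Ω[K⁄ℂ]

variable {K}

/-- `SympM` for Kaehler differentials -/
def Symp {P : Type} (R : P → Subalgebra ℂ K) (σ : Form K) : Prop :=
  SympM (fun f => KaehlerDifferential.D ℂ K f) R σ

/-- `DensM` for Kaehler differentials -/
def Dens (V : K → (ℝ × ℝ → ℂ) → Prop) (σ : Form K) (u : ℝ × ℝ) (w : ℂ) : Prop :=
  DensM (fun f => KaehlerDifferential.D ℂ K f) V σ u w

end field

variable {S : Type} [CommRing S] [IsDomain S] [Algebra ℂ S] (𝒜 : ℕ → Submodule ℂ S)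

instance topPt : TopologicalSpace (Pt 𝒜) :=
  TopologicalSpace.induced (fun p a => p.1 a) Pi.topologicalSpace

/-- the complex points of `Proj S` -/
def Cx : Type := Quot fun p q : Pt 𝒜 => ∀ a ∈ 𝒜 1, ∀ b ∈ 𝒜 1, p.1 a * q.1 b = p.1 b * q.1 a

instance topCx : TopologicalSpace (Cx 𝒜) := instTopologicalSpaceQuot

variable {𝒜}

/-- `y` is regular at `φ u` and `F` is `y` along `φ` -/
def Along (φ : ℝ × ℝ → Pt 𝒜) (u : ℝ × ℝ) (y : Fn 𝒜) (F : ℝ × ℝ → ℂ) : Prop :=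
  ∃ j, ∃ a ∈ 𝒜 j, ∃ b ∈ 𝒜 j, (φ u).1 b ≠ 0 ∧ (∀ v, F v = (φ v).1 a / (φ v).1 b) ∧
    (y : FractionRing S) = algebraMap S (FractionRing S) a / algebraMap S (FractionRing S) b

/-- the real two-torus -/
def T2 : Type := UnitAddCircle × UnitAddCircle

instance topT2 : TopologicalSpace T2 := instTopologicalSpaceProd

/-- the projection of the plane to the torus -/
def toT2 (u : ℝ × ℝ) : T2 := ((u.1 : UnitAddCircle), (u.2 : UnitAddCircle))

/-- `c` is a cocycle in a nonzero multiple of the class of `σ`: its pull back along every smooth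
torus `f` (with smooth lift `φ` to the cone) is the integral of `σ` times one class `e ≠ 0` -/
def Period (σ : Form (Fn 𝒜)) (c : List (Cx 𝒜) → ℂ) : Prop :=
  ∃ e : H T2 ℂ 2, e ≠ 0 ∧ ∀ (f : T2 → Cx 𝒜) (φ : ℝ × ℝ → Pt 𝒜) (w : ℝ × ℝ → ℂ),
    (∀ a, ContDiff ℝ (⊤ : ℕ∞) fun u => (φ u).1 a) → (∀ u, f (toT2 u) = Quot.mk _ (φ u)) →
    (∀ u, Dens (Along φ u) σ u (w u)) →
    Cls ((∫ u in Set.Icc (0 : ℝ × ℝ) 1, w u) • e) fun l => c (l.map f)

variable (𝒜) [GradedAlgebra 𝒜]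

/-- `Proj S` is a projective hyper-Kaehler fourfold with symplectic form `σ` -/
def HK (σ : Form (Fn 𝒜)) : Prop :=
  (∃ s : Finset S, (∀ a ∈ s, a ∈ 𝒜 1) ∧ Algebra.adjoin ℂ (s : Set S) = ⊤) ∧
    Algebra.trdeg ℂ (Fn 𝒜) = 4 ∧ Smooth (strMap 𝒜) ∧ SimplyConnectedSpace (Cx 𝒜) ∧
    Symp (fun p : Pt 𝒜 => loc p) σ

/-- multiplication of a section by a constant -/
def cmul {Y : Scheme.{0}} (f : Y ⟶ Spec (.of ℂ)) (M : Y.Modules) (U : Y.Opens) (c : ℂ)
    (s : Γ(M, U)) : Γ(M, U) :=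
  (Y.presheaf.map (homOfLE (le_top : U ≤ ⊤)).op
    (f.appTop ((Scheme.ΓSpecIso (.of ℂ)).inv c)) : Γ(Y, U)) • s

/-- a complex number acts on morphisms as the constant function -/
def GeomLinear {Y : Scheme.{0}} (f : Y ⟶ Spec (.of ℂ)) [Preadditive (CohCat Y)]
    [Linear ℂ (CohCat Y)] : Prop :=
  ∀ (c : ℂ) (M : CohCat Y) (U : Y.Opens) (s : Γ(M.obj, U)),
    (c • 𝟙 M : M ⟶ M).hom.app U s = cmul f M.obj U c s

/-- there is an exact `ℂ`-linear equivalence of the bounded derived categories -/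
def TriEq (C D : Type 1) [Category.{0} C] [Category.{0} D] [Abelian C] [Abelian D] [Linear ℂ C]
    [Linear ℂ D] : Prop :=
  letI := HasDerivedCategory.standard C
  letI := HasDerivedCategory.standard D
  ∃ (F : DerivedCategory.Bounded C ⥤ DerivedCategory.Bounded D) (_ : F.CommShift ℤ),
    F.IsEquivalence ∧ F.IsTriangulated ∧ F.Linear ℂ

/-- derived equivalence of two schemes over `ℂ` -/
def DerEq {X Y : Scheme.{0}} (f : X ⟶ Spec (.of ℂ)) (g : Y ⟶ Spec (.of ℂ)) : Prop :=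
  ∃ (a : Abelian (CohCat X)) (b : Abelian (CohCat Y))
    (l : @Linear ℂ _ (CohCat X) _ a.toPreadditive) (m : @Linear ℂ _ (CohCat Y) _ b.toPreadditive),
    @GeomLinear X f a.toPreadditive l ∧ @GeomLinear Y g b.toPreadditive m ∧
      @TriEq (CohCat X) (CohCat Y) _ _ a b l m

end

end Pool.Agent.Lib.MP_d3d358_ag.G
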