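import Pool.Agent.Lib.MP_cd184e_ag.T.Coh

/-! The category of coherent sheaves on a projective variety over `k` is `k`-linear. -/

set_option autoImplicit false

namespace Pool.Agent.Lib.MP_cd184e_ag.T.Coh

open CategoryTheory

variable {k K : Type} [Field k] [Field K] [Algebra k K] {X : ProjVar k K} {M N : Coh X}

instance ksmul : SMul k (M ⟶ N) :=
  ⟨fun c φ => ⟨fun s => algebraMap k (X.A s.1) c • φ.app s, fun h x => by
    rw [LinearMap.smul_apply, LinearMap.smul_apply, φ.nat, N.res_smul, AlgHom.commutes]⟩⟩

@[simp] theorem ksmul_app (c : k) (φ : M ⟶ N) (s : X.Idx) (x : M.obj s) :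
    (c • φ).app s x = algebraMap k (X.A s.1) c • φ.app s x := rfl

instance kmodule : Module k (M ⟶ N) where
  one_smul φ := hom_ext fun s x => by simp
  mul_smul a b φ := hom_ext fun s x => by simp [mul_smul]
  smul_zero a := hom_ext fun s x => by simp
  smul_add a φ ψ := hom_ext fun s x => by simp
  add_smul a b φ := hom_ext fun s x => by simp [add_smul]
  zero_smul φ := hom_ext fun s x => by simp

instance klinear : Linear k (Coh X) where
  homModule _ _ := kmodule
  smul_comp _ _ _ _ _ ψ := hom_ext fun s _ => (ψ.app s).map_smul _ _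
  comp_smul _ _ _ _ _ _ := hom_ext fun _ _ => rfl

end Pool.Agent.Lib.MP_cd184e_ag.T.Coh
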