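import Pool.Agent.Lib.MP_d3d358_ag.G.Kum

/-! A very general abelian surface of type `(1, 5)` and its dual. -/

set_option autoImplicit false

namespace Pool.Agent.Lib.MP_d3d358_ag.G

open Pool.Agent.Lib.MP_d3d358_ag.Th

noncomputable section

theorem exists_option {ι : Type} [Finite ι] (x : ι → ℂ) (hx : AlgebraicIndependent ℚ x) (y : ℝ) :
    ∃ a : ℂ, a.im = y ∧ AlgebraicIndependent ℚ (fun o : Option ι => o.elim a x) := by
  have hc : Countable (Algebra.adjoin ℚ (Set.range x)) := by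
    rw [← Cardinal.mk_le_aleph0_iff]
    refine (Algebra.cardinalMk_adjoin_le ℚ (Set.range x)).trans ?_
    have h1 : Cardinal.mk (Set.range x) ≤ Cardinal.aleph0 :=
      Cardinal.mk_le_aleph0_iff.2 (Set.countable_range x).to_subtype
    simp [h1]
  have h2 := Algebraic.countable (Algebra.adjoin ℚ (Set.range x)) ℂ
  by_contra hno
  push Not at hno
  have hinj : Function.Injective (fun r : ℝ => (⟨r, y⟩ : ℂ)) := fun r s h => congrArg Complex.re h
  have h3 : (Set.univ : Set ℝ).Countable := by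
    refine (h2.preimage_of_injOn (f := fun r : ℝ => (⟨r, y⟩ : ℂ)) hinj.injOn).mono ?_
    intro r _
    by_contra hr
    exact hno ⟨r, y⟩ rfl ((hx.option_iff_transcendental _).2 hr)
  exact Cardinal.not_countable_real h3

theorem exists_period : ∃ z : Fin 3 → ℂ, AlgebraicIndependent ℚ z ∧
    (z 0).im = 1 ∧ (z 1).im = 0 ∧ (z 2).im = 1 := by
  have h0 : AlgebraicIndependent ℚ (fun e : Empty => (e.elim : ℂ)) :=
    algebraicIndependent_empty_type
  obtain ⟨a, ha, h1⟩ := exists_option _ h0 1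
  obtain ⟨b, hb, h2⟩ := exists_option _ h1 0
  obtain ⟨c, hc, h3⟩ := exists_option _ h2 1
  refine ⟨![a, b, c], ?_, ha, hb, hc⟩
  have := h3.comp (![some (some none), some none, none] : Fin 3 → Option (Option (Option Empty)))
    (by decide)
  convert this using 1
  ext i; fin_cases i <;> rfl

theorem card_four : Fintype.card (Fin 4) = Module.finrank ℝ (Fin 2 → ℂ) := by
  rw [Module.finrank_pi_fintype]; simp [Complex.finrank_real_complex]

/-- the lattice spanned by four independent columns -/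
def latOf (b : Fin 4 → Fin 2 → ℂ) (h : LinearIndependent ℝ b) : Lat 2 where
  bas := basisOfLinearIndependentOfCardEqFinrank (ι := Fin 4) h card_four

theorem latOf_bas (b : Fin 4 → Fin 2 → ℂ) (h : LinearIndependent ℝ b) (i : Fin 4) :
    (latOf b h).bas i = b i :=
  congrFun (coe_basisOfLinearIndependentOfCardEqFinrank h card_four) i

theorem indep_of_dual (b c : Fin 4 → Fin 2 → ℂ)
    (h : ∀ i j, alt (b i) (c j) = if i = j then 1 else 0) :
    LinearIndependent ℝ b ∧ LinearIndependent ℝ c := by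
  have z1 : ∀ w : Fin 2 → ℂ, alt 0 w = 0 := fun w => by simp [alt]
  have z2 : ∀ w : Fin 2 → ℂ, alt w 0 = 0 := fun w => by simp [alt]
  constructor <;> refine Fintype.linearIndependent_iff.2 fun g hg j => ?_
  · have := congrArg (fun v => alt v (c j)) hg
    simp only [Fin.sum_univ_four, alt_add_left, alt_rsmul_left, h, z1] at this
    fin_cases j <;> simpa using this
  · have := congrArg (fun v => alt (b j) v) hg
    simp only [Fin.sum_univ_four, alt_add_right, alt_rsmul_right, h, z2] at this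
    fin_cases j <;> simpa using this

theorem even_of_bas (A : Lat 2) (k : ℕ)
    (h : ∀ i j : Fin 4, ∃ m : ℤ, k * alt (A.bas i) (A.bas j) = 2 * m) :
    ∀ l ∈ A.L, ∀ l' ∈ A.L, ∃ m : ℤ, k * alt l l' = 2 * m := by
  intro l hl l' hl'
  induction hl using Submodule.span_induction with
  | mem x hx =>
    obtain ⟨i, rfl⟩ := hx
    induction hl' using Submodule.span_induction with
    | mem y hy => obtain ⟨j, rfl⟩ := hy; exact h i j
    | zero => exact ⟨0, by simp [alt]⟩
    | add y y' _ _ e e' =>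
      obtain ⟨m, e⟩ := e
      obtain ⟨m', e'⟩ := e'
      exact ⟨m + m', by rw [alt_add_right, mul_add, e, e']; push_cast; ring⟩
    | smul a y _ e =>
      obtain ⟨m, e⟩ := e
      exact ⟨a * m, by
        rw [← Int.cast_smul_eq_zsmul ℝ, alt_rsmul_right, mul_left_comm, e]; push_cast; ring⟩
  | zero => exact ⟨0, by simp [alt]⟩
  | add y y' _ _ e e' =>
    obtain ⟨m, e⟩ := e
    obtain ⟨m', e'⟩ := e'
    exact ⟨m + m', by rw [alt_add_left, mul_add, e, e']; push_cast; ring⟩
  | smul a y _ e =>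
    obtain ⟨m, e⟩ := e
    exact ⟨a * m, by
      rw [← Int.cast_smul_eq_zsmul ℝ, alt_rsmul_left, mul_left_comm, e]; push_cast; ring⟩

theorem exists_pair : ∃ (z : Fin 3 → ℂ) (A B : Sf), AlgebraicIndependent ℚ z ∧
    Dual A.toLat B.toLat ∧ per A.toLat = !![1, z 0, 0, z 1; 0, z 1, 5, z 2] ∧
    per B.toLat * (per A.toLat).transpose = 0 := by
  obtain ⟨z, hz, h0, h1, h2⟩ := exists_period
  let b : Fin 4 → Fin 2 → ℂ := ![![1, 0], ![z 0, z 1], ![0, 5], ![z 1, z 2]]
  let c : Fin 4 → Fin 2 → ℂ := ![![-z 0, -z 1], ![1, 0], ![-z 1 / 5, -z 2 / 5], ![0, 1]]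
  have hd : ∀ i j, alt (b i) (c j) = if i = j then 1 else 0 := fun i j => by
    fin_cases i <;> fin_cases j <;> simp [b, c, alt, eta, h0, h1, h2, map_ofNat] <;> ring
  obtain ⟨hb, hc⟩ := indep_of_dual b c hd
  have kb : ∀ i j, ∃ m : ℤ, (10 : ℕ) * alt (b i) (b j) = 2 * m := fun i j =>
    ⟨(!![0, -5, 0, 0; 5, 0, 0, 0; 0, 0, 0, -25; 0, 0, 25, 0] : Matrix (Fin 4) (Fin 4) ℤ) i j, by
      fin_cases i <;> fin_cases j <;> simp [b, alt, eta, h0, h1, h2] <;> ring⟩
  have kc : ∀ i j, ∃ m : ℤ, (10 : ℕ) * alt (c i) (c j) = 2 * m := fun i j =>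
    ⟨(!![0, -5, 0, 0; 5, 0, 0, 0; 0, 0, 0, -1; 0, 0, 1, 0] : Matrix (Fin 4) (Fin 4) ℤ) i j, by
      fin_cases i <;> fin_cases j <;> simp [c, alt, eta, h0, h1, h2, map_ofNat] <;> ring⟩
  refine ⟨z, ⟨latOf b hb, 10, by norm_num, even_of_bas _ _ fun i j => ?_⟩,
    ⟨latOf c hc, 10, by norm_num, even_of_bas _ _ fun i j => ?_⟩, hz, ⟨fun i j => ?_, ?_, ?_, ?_, ?_⟩,
    ?_, ?_⟩
  · rw [latOf_bas, latOf_bas]; exact kb i j
  · rw [latOf_bas, latOf_bas]; exact kc i j
  · rw [latOf_bas, latOf_bas]; exact hd i j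
  · rw [latOf_bas, latOf_bas]; rfl
  · rw [latOf_bas, latOf_bas]; funext a; fin_cases a <;> simp [b, c]
  · rw [latOf_bas, latOf_bas]; funext a; fin_cases a <;> simp [b, c]
  · rw [latOf_bas, latOf_bas]; funext a; fin_cases a <;> simp [b, c] <;> ring
  · ext a i
    rw [per, Matrix.of_apply, latOf_bas]
    fin_cases a <;> fin_cases i <;> rfl
  · ext a a'
    simp only [per, Matrix.mul_apply, Matrix.transpose_apply, Matrix.of_apply, latOf_bas]
    fin_cases a <;> fin_cases a' <;> simp [Fin.sum_univ_four, b, c]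

end

end Pool.Agent.Lib.MP_d3d358_ag.G
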