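import Pool.Agent.Lib.MP_d3d358_ag.G.Stmt
import Pool.Agent.Lib.MP_d3d358_ag.G.CohLin
import Pool.Agent.Lib.MP_cd184e_ag.B.EssSurj
import Pool.Agent.Lib.MP_cd184e_ag.B.Transfer
import Pool.Agent.Lib.MP_cd184e_ag.B.ProjModel

/-! Derived equivalences pass from descent data to schemes. -/

set_option autoImplicit false

namespace Pool.Agent.Lib.MP_d3d358_ag.G

open CategoryTheory AlgebraicGeometry Limits
open Pool.Agent.Lib.MP_cd184e_ag.T Pool.Agent.Lib.MP_cd184e_ag.B

section abstract

variable {C D E : Type 1} [Category.{0} C] [Category.{0} D] [Category.{0} E] [Abelian C]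
  [Abelian D] [Abelian E] [Linear ℂ C] [Linear ℂ D] [Linear ℂ E]

/-- exact linear equivalences -/
def Tri (C D : Type 1) [Category.{1} C] [Category.{1} D] [Preadditive C] [Preadditive D] [Linear ℂ C]
    [Linear ℂ D] [HasZeroObject C] [HasZeroObject D] [HasShift C ℤ] [HasShift D ℤ]
    [∀ n : ℤ, (shiftFunctor C n).Additive] [∀ n : ℤ, (shiftFunctor D n).Additive]
    [Pretriangulated C] [Pretriangulated D] : Prop :=
  ∃ (F : C ⥤ D) (_ : F.CommShift ℤ), F.IsEquivalence ∧ F.IsTriangulated ∧ F.Linear ℂ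

theorem Tri.trans {C D E : Type 1} [Category.{1} C] [Category.{1} D] [Category.{1} E]
    [Preadditive C] [Preadditive D] [Preadditive E] [Linear ℂ C]
    [Linear ℂ D] [Linear ℂ E] [HasZeroObject C] [HasZeroObject D] [HasZeroObject E] [HasShift C ℤ]
    [HasShift D ℤ] [HasShift E ℤ]
    [∀ n : ℤ, (shiftFunctor C n).Additive] [∀ n : ℤ, (shiftFunctor D n).Additive]
    [∀ n : ℤ, (shiftFunctor E n).Additive]
    [Pretriangulated C] [Pretriangulated D] [Pretriangulated E] (h : Tri C D) (h' : Tri D E) :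
    Tri C E := by
  obtain ⟨F, _, _, _, _⟩ := h
  obtain ⟨G, _, _, _, _⟩ := h'
  exact ⟨F ⋙ G, inferInstance, inferInstance, inferInstance, inferInstance⟩

theorem TriEq.trans (h : TriEq C D) (h' : TriEq D E) : TriEq C E :=
  letI := HasDerivedCategory.standard C
  letI := HasDerivedCategory.standard D
  letI := HasDerivedCategory.standard E
  Tri.trans (C := DerivedCategory.Bounded C) (D := DerivedCategory.Bounded D)
    (E := DerivedCategory.Bounded E) h h'

attribute [local instance] additive_functor additive_inverse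

omit [Linear ℂ C] [Linear ℂ D] in
theorem bounded_map [HasDerivedCategory.{1} C] [HasDerivedCategory.{1} D] (e : C ≌ D)
    (K : DerivedCategory C) (h : DerivedCategory.TStructure.t.bounded K) :
    DerivedCategory.TStructure.t.bounded (e.functor.mapDerivedCategory.obj K) := by
  obtain ⟨⟨a, ha⟩, b, hb⟩ := h
  have : K.IsGE a := ha
  have : K.IsLE b := hb
  exact ⟨⟨a, isGE_map e K a⟩, b, isLE_map e K b⟩

theorem triEq_of_equiv (e : C ≌ D) [e.functor.Linear ℂ] : TriEq C D := by
  let := HasDerivedCategory.standard C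
  let := HasDerivedCategory.standard D
  have hE : e.functor.mapDerivedCategory.IsEquivalence :=
    (CategoryTheory.Equivalence.mk e.functor.mapDerivedCategory e.inverse.mapDerivedCategory
      (derivedUnit e) (derivedUnit e.symm).symm).isEquivalence_functor
  let F : DerivedCategory.Bounded C ⥤ DerivedCategory.Bounded D :=
    ObjectProperty.lift _ (DerivedCategory.Bounded.ι ⋙ e.functor.mapDerivedCategory)
      fun K => bounded_map e _ K.property
  have hs : F.EssSurj := ⟨fun L => ⟨⟨e.inverse.mapDerivedCategory.obj L.obj,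
    bounded_map e.symm _ L.property⟩,
    ⟨ObjectProperty.isoMk _ ((derivedUnit e.symm).app L.obj).symm⟩⟩⟩
  exact ⟨F, inferInstance, {}, inferInstance, ⟨fun f c => ObjectProperty.hom_ext _
    (e.functor.mapDerivedCategory.map_smul c f.hom)⟩⟩

end abstract

variable {K : Type} [Field K] [Algebra ℂ K] {X : ProjVar ℂ K} {Y : Scheme.{0}} (𝓜 : Model X Y)
  (f : Y ⟶ Spec (.of ℂ)) (hf : ∀ s c, 𝓜.e s (const f (𝓜.U s) c) = algebraMap ℂ _ c)

/-- multiplication by a constant -/
noncomputable def cHom (M : CohCat Y) (c : ℂ) : M ⟶ M :=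
  ObjectProperty.homMk (mkHom (fun V => const f V c • LinearMap.id) fun V W h x => by
    simp [mres_smul])

include hf in
theorem exists_linear : ∃ (a : Abelian (CohCat Y)) (l : @Linear ℂ _ (CohCat Y) _ a.toPreadditive),
    @GeomLinear Y f a.toPreadditive l ∧ @TriEq (CohCat Y) (Coh X) _ _ a _ l _ ∧
      @TriEq (Coh X) (CohCat Y) _ _ _ a _ l := by
  have := 𝓜.isEquivalence
  have : HasFiniteProducts (CohCat Y) :=
    ⟨fun _ => Adjunction.hasLimitsOfShape_of_equivalence 𝓜.sec⟩
  let a := abelianOfEquivalence 𝓜.sec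
  have had : 𝓜.sec.Additive := additive_functor 𝓜.sec.asEquivalence
  let ff := Functor.FullyFaithful.ofFullyFaithful 𝓜.sec
  let ad : ∀ M N : CohCat Y, (M ⟶ N) ≃+ (𝓜.sec.obj M ⟶ 𝓜.sec.obj N) := fun M N =>
    { ff.homEquiv with map_add' := fun _ _ => 𝓜.sec.map_add }
  let md : ∀ M N : CohCat Y, Module ℂ (M ⟶ N) := fun M N => (ad M N).module ℂ
  have hm : ∀ (M N : CohCat Y) (c : ℂ) (φ : M ⟶ N), 𝓜.sec.map (c • φ) = c • 𝓜.sec.map φ :=
    fun M N c φ => (ad M N).apply_symm_apply _
  let l : Linear ℂ (CohCat Y) :=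
    { homModule := md
      smul_comp := fun _ _ _ c φ ψ => 𝓜.sec.map_injective (by
        rw [Functor.map_comp, hm, hm, Functor.map_comp, Linear.smul_comp])
      comp_smul := fun _ _ _ φ c ψ => 𝓜.sec.map_injective (by
        rw [Functor.map_comp, hm, hm, Functor.map_comp, Linear.comp_smul]) }
  have hl : 𝓜.sec.asEquivalence.functor.Linear ℂ := ⟨fun φ c => hm _ _ c φ⟩
  have hl' : 𝓜.sec.asEquivalence.symm.functor.Linear ℂ :=
    Equivalence.inverseLinear ℂ 𝓜.sec.asEquivalence
  refine ⟨a, l, fun c M U s => ?_, triEq_of_equiv 𝓜.sec.asEquivalence,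
    triEq_of_equiv 𝓜.sec.asEquivalence.symm⟩
  have : (c • 𝟙 M : M ⟶ M) = cHom f M c := 𝓜.sec.map_injective <| by
    rw [hm]
    refine Coh.hom_ext fun t x => ?_
    exact congrArg (fun r : Γ(Y, 𝓜.U t) => r • (show Γ(M.obj, 𝓜.U t) from x))
      ((𝓜.e t).symm_apply_eq.2 (hf t c).symm)
  rw [this]
  rfl

theorem derEq_of_triEq {K' : Type} [Field K'] [Algebra ℂ K'] (X : ProjVar ℂ K)
    (X' : ProjVar ℂ K') (h : TriEq (Coh X) (Coh X')) :
    DerEq (strMap (grade X)) (strMap (grade X')) := by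
  obtain ⟨a, l, h1, h2, -⟩ := exists_linear (projModel X) _ (secEquiv_const X)
  obtain ⟨b, m, h3, -, h4⟩ := exists_linear (projModel X') _ (secEquiv_const X')
  exact ⟨a, b, l, m, h1, h3, (h2.trans h).trans h4⟩

end Pool.Agent.Lib.MP_d3d358_ag.G
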