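import Pool.Agent.Lib.MP_d3d358_ag.G.NoFrob
import Pool.Agent.Lib.MP_d3d358_ag.G.Trans
import Pool.Agent.Lib.MP_d3d358_ag.G.Pair
import Pool.Agent.Lib.MP_d3d358_ag.Fm.Main
import Pool.Agent.Lib.MP_d3d358_ag.Fm.Ker
import Pool.Agent.Lib.MP_d3d358_ag.Var.Good
import Pool.Agent.Lib.MP_d3d358_ag.Var.HKX
import Pool.Agent.Lib.MP_d3d358_ag.K.Bkr

/-! The assembly. -/

set_option autoImplicit false

namespace Pool.Agent.Lib.MP_d3d358_ag.G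

open Pool.Agent.Lib.MP_d3d358_ag.AS Pool.Agent.Lib.MP_d3d358_ag.Var
open Pool.Agent.Lib.MP_9ff3e7_ag.F Pool.Agent.Lib.MP_cd184e_ag.B Pool.Agent.Lib.MP_cd184e_ag.T

theorem triEq_X {A B : Sf} (hA : Good A) (hB : Good B) (hD : Dual A.toLat B.toLat) :
    TriEq (Coh (Var.X hA)) (Coh (Var.X hB)) :=
  (K.exists_bkr hA).elim fun b => (K.exists_bkr hB).elim fun b' =>
    Th.derived_equiv (Fm.ker hD) b b'

theorem main :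
    ∃ (S S' : Type) (_ : CommRing S) (_ : CommRing S') (_ : IsDomain S) (_ : IsDomain S')
      (_ : Algebra ℂ S) (_ : Algebra ℂ S') (𝒜 : ℕ → Submodule ℂ S) (ℬ : ℕ → Submodule ℂ S')
      (_ : GradedAlgebra 𝒜) (_ : GradedAlgebra ℬ) (σ : Form (Fn 𝒜)) (τ : Form (Fn ℬ)),
      HK 𝒜 σ ∧ HK ℬ τ ∧ DerEq (strMap 𝒜) (strMap ℬ) ∧
      ¬∃ g : ∀ k, H (Cx 𝒜) ℚ k ≃ₗ[ℚ] H (Cx ℬ) ℚ k, HodgeFrob 8 (Period σ) (Period τ) g := by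
  obtain ⟨z, A, B, hz, hD, hP, hQ⟩ := exists_pair
  obtain ⟨a, hA⟩ := exists_good (A := A)
  obtain ⟨b, hB⟩ := exists_good (A := B)
  obtain ⟨σ, h1, h2⟩ := hk hA
  obtain ⟨τ, h3, h4⟩ := hk hB
  exact ⟨_, _, _, _, _, _, _, _, grade (Var.X hA), grade (Var.X hB), _, _, σ, τ, h1, h3,
    derEq_of_triEq _ _ (triEq_X hA hB hD), no_frob hA hB hz hD hP hQ h1.2.2.2.2 h2 h3.2.2.2.2 h4⟩

end Pool.Agent.Lib.MP_d3d358_ag.G
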