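import Pool.Agent.Lib.MP_d3d358_ag.G.Zt
import Pool.Agent.Lib.MP_d3d358_ag.Var.GeoCx
import Pool.Agent.Lib.MP_d3d358_ag.Var.GeoInv
import Pool.Agent.Lib.MP_d3d358_ag.Var.SegKD
import Pool.Agent.Lib.MP_d3d358_ag.Var.GeoM
import Pool.Agent.Lib.MP_d3d358_ag.Var.GeoT
import Pool.Agent.Lib.MP_d3d358_ag.Var.A3

/-! The analytic interface `Geo` for the generalised Kummer fourfold. -/

set_option autoImplicit false

namespace Pool.Agent.Lib.MP_d3d358_ag.G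

open Filter Topology Set
open Pool.Agent.Lib.MP_d3d358_ag.AS (I8 pa sm mkT tens nrm omg alt5 Geo H Cls)
open Pool.Agent.Lib.MP_d3d358_ag.Var (V gv Lam Seg prj metricCx Good nW nU fW gU seg)
open Pool.Agent.Lib.MP_cd184e_ag.B (grade)
open Pool.Agent.Lib.MP_9ff3e7_ag.F (Gen1)

noncomputable section

/-- the field `per` of `Geo` -/
def PerOK (P : Matrix (Fin 2) (Fin 4) ℂ) {X : Type} (Per : (List X → ℂ) → Prop) {m₁ m₂ m : ℕ}
    (e : Fin m ≃ Fin m₁ × Fin m₂) (f : (I8 → ℝ) → Fin m₁ → ℂ) (g : (I8 → ℝ) → Fin m₂ → ℂ)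
    (pr : EuclideanSpace ℂ (Fin m) → X) (M : (I8 → ℝ) → (Fin 2 → ℂ) →L[ℂ] Fin m₁ → ℂ) : Prop :=
  ∀ c, Per c → ∃ (ε : H (UnitAddCircle × UnitAddCircle) ℂ 2) (κ : ℂ), ε ≠ 0 ∧ κ ≠ 0 ∧
    (∀ (t : I8 → ℝ) (l l' : I8 → ℤ) (φ : UnitAddCircle × UnitAddCircle → X),
      (∀ u u' : ℝ, AS.Free (mkT fun i => t i + u * l i + u' * l' i) ∧
        φ (u, u') = pr (nrm (tens e (f fun i => t i + u * l i + u' * l' i)
          (g fun i => t i + u * l i + u' * l' i)))) →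
      Cls ((κ * omg P (fun i => l i) fun i => l' i) • ε) fun L => c (L.map φ)) ∧
    ∀ (t : I8 → ℝ) (α : ℝ × ℝ → Fin 2 → ℂ) (φ : UnitAddCircle × UnitAddCircle → X),
      pa 0 t = pa 1 t → pa 0 (mkT t) ≠ pa 2 (mkT t) → ContDiff ℝ (⊤ : ℕ∞) α → (∀ u, α u ≠ 0) →
      (∀ u u' : ℝ, φ (u, u') = pr (nrm (tens e (M t (α (u, u'))) (g t)))) →
      Cls (0 : H (UnitAddCircle × UnitAddCircle) ℂ 2) fun L => c (L.map φ)

variable {A : Sf}

theorem geo_of {S : Type} [CommRing S] [IsDomain S] [Algebra ℂ S] {𝒜 : ℕ → Submodule ℂ S}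
    [GradedAlgebra 𝒜] {m₁ m₂ m : ℕ} (D : Seg 𝒜 (Lam A) (Fin m₁) (Fin m₂))
    (e : Fin m ≃ Fin m₁ × Fin m₂) (h : Gen1 𝒜) (x₀ : Cx 𝒜) (hne : (Var.Free (Lam A)).Nonempty)
    {N : V → (Fin 2 → ℂ) →L[ℂ] Fin m₁ → ℂ} (cN : Continuous N)
    (hN : ∀ z, (fun i => (D.f i).1 z) = N z (crd 0 z - crd 1 z))
    (iN : ∀ z, crd 0 z = crd 1 z → crd 0 z - crd 2 z ∉ A.toLat.L → Function.Injective (N z))
    (h3 : ∀ b, crd 0 b = crd 1 b → crd 0 b - crd 2 b ∈ A.toLat.L →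
      ∃ (τ : V → Fin 4 → ℂ) (E : V → (Fin 5 → ℂ) →L[ℂ] Fin m₁ → ℂ),
        map τ (𝓝 b) = 𝓝 0 ∧ ContinuousAt E b ∧ Function.Injective (E b) ∧
        ∀ᶠ z in 𝓝 b, (fun i => (D.f i).1 z) = E z (alt5 (τ z)))
    {Per : (List (Cx 𝒜) → ℂ) → Prop}
    (hp : PerOK (per A.toLat) Per e (fun t i => (D.f i).1 (zt A.toLat t))
      (fun t j => (D.g j).1 (zt A.toLat t)) (prj (D.se e) x₀) fun t => N (zt A.toLat t)) :
    Nonempty (@Geo (per A.toLat) (Cx 𝒜) (metricCx h) Per) := by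
  have hcl := D.closure_tv e hne (zt_surj A.toLat)
  have cz := continuous_zt A.toLat
  obtain ⟨g1, g2, g3, g4⟩ := D.geo_fields (orbit_iff A.toLat) (free_iff A.toLat)
  refine ⟨@Geo.mk _ _ (metricCx h) _ m₁ m₂ m e (fun t i => (D.f i).1 (zt A.toLat t))
    (fun t j => (D.g j).1 (zt A.toLat t))
    (continuous_pi fun i => (D.f i).cont.comp cz) (continuous_pi fun j => (D.g j).cont.comp cz)
    (fun s t t' hs => g1 t t' ⟨s, hs⟩) g2 g3 g4 (prj (D.se e) x₀) ?_ ?_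
    (fun t => N (zt A.toLat t)) (cN.comp cz) (fun t => ?_)
    (fun t h1 h2 => iN _ ((pa_eq_iff' A.toLat t 0 1).1 h1) fun h' =>
      h2 ((pa_eq_iff A.toLat t 0 2).2 h')) (fun t h1 h2 => ?_) hp⟩
  · exact (congrArg (fun T => @AS.CB m (Cx 𝒜) (metricCx h) T (prj (D.se e) x₀)) hcl).mpr
      (Var.cb_sph (D.se_mem e) (D.adjoin_se e) h x₀)
  · exact (congrArg (fun T => prj (D.se e) x₀ '' T) hcl).trans
      (Var.prj_image_sph (D.se_mem e) (D.adjoin_se e) x₀)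
  · exact (hN _).trans (congrArg _ ((congrArg₂ (· - ·) (crd_zt A.toLat 0 t)
      (crd_zt A.toLat 1 t)).trans (cx_sub A.toLat _ _).symm))
  · obtain ⟨τ, E, a1, a2, a3, a4⟩ := h3 _ ((pa_eq_iff' A.toLat t 0 1).1 h1)
      ((pa_eq_iff A.toLat t 0 2).1 h2)
    exact ⟨τ ∘ zt A.toLat, E ∘ zt A.toLat, by rw [← map_map, map_zt_nhds, a1],
      a2.comp cz.continuousAt, a3, cz.continuousAt.eventually a4⟩

theorem free_nonempty (hA : Good A) : (Var.Free (Lam A)).Nonempty := by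
  obtain ⟨l⟩ := Var.nonempty_idx hA
  obtain ⟨z, hz⟩ := Var.Ent.exists_ne (Var.fW_ne hA (finProdFinEquiv.symm l).1)
  exact ⟨z, ((seg hA).free z).2 ⟨_, hz⟩⟩

/-- `Geo` for `X`, given the period tests for every `N` that is the normal derivative on the
mirror -/
theorem geo (hA : Good A) (h : Gen1 (grade (Var.X hA))) (x₀ : Cx (grade (Var.X hA)))
    {Per : (List (Cx (grade (Var.X hA))) → ℂ) → Prop}
    (hp : ∀ N : V → (Fin 2 → ℂ) →L[ℂ] Fin (nW A) → ℂ, Continuous N →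
      (∀ z, (fun i => (fW hA i).1 z) = N z (crd 0 z - crd 1 z)) →
      (∀ z, crd 0 z = crd 1 z → crd 0 z - crd 2 z ∉ A.toLat.L → Function.Injective (N z)) →
      (∀ z, crd 0 z = crd 1 z → ∀ w i, N z w i = fderiv ℂ (fW hA i).1 z (Var.geoN w)) →
      PerOK (per A.toLat) Per finProdFinEquiv.symm (fun t i => (fW hA i).1 (zt A.toLat t))
        (fun t j => (gU hA j).1 (zt A.toLat t)) (prj ((seg hA).se finProdFinEquiv.symm) x₀)
        fun t => N (zt A.toLat t)) :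
    Nonempty (@Geo (per A.toLat) (Cx (grade (Var.X hA))) (metricCx h) Per) := by
  obtain ⟨N, c1, c2, c3, c4⟩ := Var.exists_hadamard hA
  exact geo_of (seg hA) finProdFinEquiv.symm h x₀ (free_nonempty hA) c1 c2 c3
    (Var.GeoT.exists_triple hA (Var.trdeg_KN A)) (hp N c1 c2 c3 c4)

end

end Pool.Agent.Lib.MP_d3d358_ag.G
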