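import Pool.Agent.Lib.MP_d3d358_ag.G.PerK
import Pool.Agent.Lib.MP_d3d358_ag.AS.Betti

/-! No isomorphism of Frobenius algebras that keeps the line of the symplectic form. -/

set_option autoImplicit false

namespace Pool.Agent.Lib.MP_d3d358_ag.G

open Pool.Agent.Lib.MP_d3d358_ag.AS (omg Geo H HodgeFrob)
open Pool.Agent.Lib.MP_d3d358_ag.Var
open Pool.Agent.Lib.MP_cd184e_ag.B (grade)
open Pool.Agent.Lib.MP_9ff3e7_ag.F (Pt Fn loc)

noncomputable section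

theorem cx_smul_mat (c : ℂ) (P : Matrix (Fin 2) (Fin 4) ℂ) (u : Fin 4 → ℝ) :
    AS.cx (c • P) u = c • AS.cx P u := Matrix.smul_mulVec _ _ _

theorem omg_smul_mat (c : ℂ) (P : Matrix (Fin 2) (Fin 4) ℂ) (l l' : AS.I8 → ℝ) :
    omg (c • P) l l' = c ^ 2 * omg P l l' := by
  simp only [omg, cx_smul_mat, Finset.mul_sum, Pi.smul_apply, smul_eq_mul]
  exact Finset.sum_congr rfl fun a _ => by ring

theorem geo_smul {P : Matrix (Fin 2) (Fin 4) ℂ} {Z : Type} [MetricSpace Z]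
    {Per : (List Z → ℂ) → Prop} (Γ : Geo P Z Per) {c : ℂ} (hc : c ≠ 0) :
    Nonempty (Geo (c • P) Z Per) :=
  ⟨{ Γ with
    M := fun t => c⁻¹ • Γ.M t
    cM := by have := Γ.cM; fun_prop
    f_eq := fun t => by
      rw [Γ.f_eq, cx_smul_mat, smul_apply, map_smul, smul_smul,
        inv_mul_cancel₀ hc, one_smul]
    M_inj := fun t h1 h2 _ _ e => Γ.M_inj t h1 h2 (smul_right_injective _ (inv_ne_zero hc) e)
    per := fun φ hφ => by
      obtain ⟨ε, κ, h1, h2, h3, h4⟩ := Γ.per φ hφ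
      refine ⟨ε, κ / c ^ 2, h1, div_ne_zero h2 (pow_ne_zero _ hc), fun t l l' ψ hψ => ?_,
        fun t α ψ a1 a2 a3 a4 a5 => h4 t (fun u => c⁻¹ • α u) ψ a1 a2 (a3.const_smul _)
          (fun u => smul_ne_zero (inv_ne_zero hc) (a4 u)) fun u u' => ?_⟩
      · rw [omg_smul_mat, ← mul_assoc, div_mul_cancel₀ _ (pow_ne_zero _ hc)]
        exact h3 t l l' ψ hψ
      · rw [a5, map_smul]; rfl }⟩

theorem no_frob {A B : Sf} (hA : Good A) (hB : Good B) {z : Fin 3 → ℂ}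
    (hz : AlgebraicIndependent ℚ z) (hD : Dual A.toLat B.toLat)
    (hP : per A.toLat = !![1, z 0, 0, z 1; 0, z 1, 5, z 2])
    (hQ : per B.toLat * (per A.toLat).transpose = 0)
    {σ : Form (Fn (grade (X hA)))} {τ : Form (Fn (grade (X hB)))}
    (hσ : Symp (fun p : Pt (grade (X hA)) => loc p) σ) (hm : MatOf (iota (X hA)) σ (sig zc))
    (hτ : Symp (fun p : Pt (grade (X hB)) => loc p) τ) (hn : MatOf (iota (X hB)) τ (sig zc)) :
    ¬∃ g : ∀ k, H (Cx (grade (X hA))) ℚ k ≃ₗ[ℚ] H (Cx (grade (X hB))) ℚ k,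
      HodgeFrob 8 (Period σ) (Period τ) g := by
  let _ := metricCx (gen1 (X hA))
  let _ := metricCx (gen1 (X hB))
  have := compactSpace_cx (gen1 (X hA))
  have := compactSpace_cx (gen1 (X hB))
  obtain ⟨Γ⟩ := geoX hA (gen1 (X hA)) hσ hm
  obtain ⟨Γ'⟩ := geoX hB (gen1 (X hB)) hτ hn
  obtain ⟨Γ''⟩ := geo_smul Γ' Complex.I_ne_zero
  exact AS.betti hz (by rw [← hP, Matrix.smul_mul, hQ, smul_zero]) (hP ▸ Γ) Γ''
    (hP ▸ conv_left hD hP) (conv_right hD hP)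

end

end Pool.Agent.Lib.MP_d3d358_ag.G
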