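import Pool.Agent.Lib.MP_d3d358_ag.G.Stmt
import Pool.Agent.Lib.MP_d3d358_ag.Var.TwoF
import Pool.Agent.Lib.MP_d3d358_ag.Var.Dict0
import Pool.Agent.Lib.MP_9ff3e7_ag.F.XDefs

/-! The density of the symplectic form along two kinds of tori. -/

set_option autoImplicit false

namespace Pool.Agent.Lib.MP_d3d358_ag.G

open Pool.Agent.Lib.MP_9ff3e7_ag.F Pool.Agent.Lib.MP_d3d358_ag.Var Filter Topology
open TwoF (dv dv_div dv_mem dv_apply dE_apply)

noncomputable section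

theorem exists_pres {K Mo : Type} [Field K] [Algebra ℂ K] [AddCommGroup Mo] [Module K Mo]
    (D : K → Mo) (R : Subalgebra ℂ K) {σ : ExteriorAlgebra K Mo} (h : σ ∈ st D 2 R) :
    ∃ (k : ℕ) (y : Fin k → Fin 3 → K), (∀ i t, y i t ∈ R) ∧
      σ = ∑ i, y i 0 • ExteriorAlgebra.ιMulti K 2 ![D (y i 1), D (y i 2)] := by
  induction h using AddSubgroup.closure_induction with
  | mem x hx =>
    obtain ⟨r, hr, f, hf, rfl⟩ := hx
    refine ⟨1, fun _ => ![r, f 0, f 1], fun _ t => ?_, ?_⟩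
    · fin_cases t
      exacts [hr, hf 0, hf 1]
    · rw [Fin.sum_univ_one]
      congr 2
      funext i; fin_cases i <;> rfl
  | zero => exact ⟨0, Fin.elim0, fun i => i.elim0, by simp⟩
  | add x x' _ _ hx hx' =>
    obtain ⟨k, y, hy, rfl⟩ := hx
    obtain ⟨k', y', hy', rfl⟩ := hx'
    refine ⟨k + k', Fin.append y y', fun i => ?_, ?_⟩
    · refine Fin.addCases (fun i => ?_) (fun i => ?_) i
      · rw [Fin.append_left]; exact hy i
      · rw [Fin.append_right]; exact hy' i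
    · simp only [Fin.sum_univ_add, Fin.append_left, Fin.append_right]
  | neg x _ hx =>
    obtain ⟨k, y, hy, rfl⟩ := hx
    refine ⟨k, fun i => ![-y i 0, y i 1, y i 2], fun i t => ?_, ?_⟩
    · fin_cases t
      exacts [neg_mem (hy i 0), hy i 1, hy i 2]
    · simp

variable {S : Type} [CommRing S] [IsDomain S] [Algebra ℂ S] {𝒜 : ℕ → Submodule ℂ S}
  [GradedAlgebra 𝒜]

theorem exists_dens {σ : Form (Fn 𝒜)} (hσ : Symp (fun p : Pt 𝒜 => loc p) σ) (φ : ℝ × ℝ → Pt 𝒜)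
    (u : ℝ × ℝ) : ∃ w, Dens (Along φ u) σ u w := by
  obtain ⟨k, y, hy, e⟩ := exists_pres _ _ (hσ.1 (φ u))
  choose j a ha b hb h0 h using fun i t => mem_loc.1 (hy i t)
  exact ⟨_, k, y, fun i t v => (φ v).1 (a i t) / (φ v).1 (b i t), fun i t =>
    ⟨j i t, a i t, ha i t, b i t, hb i t, h0 i t, fun _ => rfl, h i t⟩, e, rfl⟩

theorem det_zero {δ : Fin 2 → ℂ} (hδ : δ ≠ 0) (L L' : (Fin 2 → ℂ) →L[ℂ] ℂ) (h : L δ = 0)
    (h' : L' δ = 0) (x y : Fin 2 → ℂ) : L x * L' y - L y * L' x = 0 := by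
  have e : ∀ (T : (Fin 2 → ℂ) →L[ℂ] ℂ) (v : Fin 2 → ℂ),
      T v = v 0 * T (Pi.single 0 1) + v 1 * T (Pi.single 1 1) := fun T v => by
    rw [← smul_eq_mul, ← smul_eq_mul, ← map_smul, ← map_smul, ← map_add]
    congr 1
    funext i; fin_cases i <;> simp
  rw [e] at h h'
  rw [e L x, e L y, e L' x, e L' y]
  generalize L (Pi.single 0 1) = a, L (Pi.single 1 1) = b, L' (Pi.single 0 1) = c,
    L' (Pi.single 1 1) = d at h h' ⊢
  have hd : a * d - b * c = 0 := by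
    by_contra hne
    refine hδ (funext fun i => ?_)
    fin_cases i
    · exact mul_left_cancel₀ hne (show _ * δ 0 = _ * 0 by linear_combination d * h - b * h')
    · exact mul_left_cancel₀ hne (show _ * δ 1 = _ * 0 by linear_combination a * h' - c * h)
  linear_combination (x 0 * y 1 - x 1 * y 0) * hd

theorem euler {F : (Fin 2 → ℂ) → ℂ} {δ : Fin 2 → ℂ} (hF : DifferentiableAt ℂ F δ)
    (h : ∀ c : ℂ, c ≠ 0 → F (c • δ) = F δ) : fderiv ℂ F δ δ = 0 := by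
  have h1 : HasDerivAt (fun c : ℂ => c • δ) δ 1 := by
    simpa using (hasDerivAt_id (1 : ℂ)).smul_const δ
  have h2 : HasDerivAt (fun c : ℂ => F (c • δ)) (fderiv ℂ F δ δ) 1 :=
    (show HasFDerivAt F (fderiv ℂ F δ) ((1 : ℂ) • δ) by
      rw [one_smul]; exact hF.hasFDerivAt).comp_hasDerivAt (1 : ℂ) h1
  refine h2.unique ((hasDerivAt_const (1 : ℂ) (F δ)).congr_of_eventuallyEq ?_)
  filter_upwards [eventually_ne_nhds (one_ne_zero : (1 : ℂ) ≠ 0)] with c hc using h c hc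

theorem diff_div {E : Type} [NormedAddCommGroup E] [NormedSpace ℂ E] {F G : E → ℂ} {x : E}
    (hF : DifferentiableAt ℂ F x) (hG : DifferentiableAt ℂ G x) (h : G x ≠ 0) :
    DifferentiableAt ℂ (fun y => F y / G y) x := by
  simp only [div_eq_mul_inv]
  exact hF.mul (hG.inv h)

theorem fderiv_comp_real {E : Type} [NormedAddCommGroup E] [NormedSpace ℂ E] {F : E → ℂ}
    {α : ℝ × ℝ → E} {u : ℝ × ℝ} (hF : DifferentiableAt ℂ F (α u)) (hα : DifferentiableAt ℝ α u)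
    (v : ℝ × ℝ) : fderiv ℝ (fun x => F (α x)) u v = fderiv ℂ F (α u) (fderiv ℝ α u v) :=
  congrArg (fun T : ℝ × ℝ →L[ℝ] ℂ => T v)
    ((hF.hasFDerivAt.restrictScalars ℝ).comp u hα.hasFDerivAt).fderiv

omit [GradedAlgebra 𝒜] in
/-- along a torus inside a rational curve the density vanishes -/
theorem dens_exc {σ : Form (Fn 𝒜)} (p : (Fin 2 → ℂ) → S →ₐ[ℂ] ℂ)
    (hp : ∀ a, Differentiable ℂ fun δ => p δ a)
    (hh : ∀ (c : ℂ) δ j, ∀ a ∈ 𝒜 j, p (c • δ) a = c ^ j * p δ a) {α : ℝ × ℝ → Fin 2 → ℂ}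
    {u : ℝ × ℝ} (hα : DifferentiableAt ℝ α u) (h0 : α u ≠ 0) {φ : ℝ × ℝ → Pt 𝒜}
    (hφ : ∀ v, (φ v).1 = p (α v)) {w : ℂ} (h : Dens (Along φ u) σ u w) : w = 0 := by
  obtain ⟨k, y, F, hF, -, rfl⟩ := h
  have key : ∀ i t, ∃ L : (Fin 2 → ℂ) →L[ℂ] ℂ, L (α u) = 0 ∧
      ∀ v, fderiv ℝ (F i t) u v = L (fderiv ℝ α u v) := fun i t => by
    obtain ⟨j, a, ha, b, hb, h1, h2, -⟩ := hF i t
    rw [hφ] at h1
    have hd : DifferentiableAt ℂ (fun δ => p δ a / p δ b) (α u) := diff_div (hp a _) (hp b _) h1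
    refine ⟨fderiv ℂ (fun δ => p δ a / p δ b) (α u), euler hd fun c hc => ?_, fun v => ?_⟩
    · rw [hh c _ j a ha, hh c _ j b hb, mul_div_mul_left _ _ (pow_ne_zero j hc)]
    · rw [← fderiv_comp_real hd hα]
      congr 2
      funext x
      rw [h2, hφ]
  refine Finset.sum_eq_zero fun i _ => ?_
  obtain ⟨L, h1, e⟩ := key i 1
  obtain ⟨L', h2, e'⟩ := key i 2
  rw [jac, e, e, e', e', det_zero h0 L L' h1 h2, mul_zero]

theorem val_dv (F : Ent) {F' : Ent} {z : V} (h : F'.1 z ≠ 0) (v : V) :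
    val (dv v (emb F / emb F')) z = fderiv ℂ (fun x => F.1 x / F'.1 x) z v := by
  rw [dv_div v F F' (Ent.ne_zero h), val_div _ (F' := F' * F') (mul_ne_zero h h)]
  have e := ((F.diff z).hasFDerivAt.mul
    ((hasDerivAt_inv h).comp_hasFDerivAt z (F'.diff z).hasFDerivAt)).fderiv
  have e2 : (fun x => F.1 x / F'.1 x) = F.1 * ((fun y : ℂ => y⁻¹) ∘ F'.1) :=
    funext fun x => div_eq_mul_inv _ _
  rw [e2, e]
  simp only [Ent.sub_apply, Ent.mul_apply, dE_apply, add_apply,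
    smul_apply, smul_eq_mul, Function.comp_apply]
  field_simp
  ring

omit [GradedAlgebra 𝒜] in
/-- along an affine torus the density of a constant form is constant -/
theorem dens_lin {σ : Form (Fn 𝒜)} (ι : Fn 𝒜 →ₐ[ℂ] M) (Θ : S →ₐ[ℂ] Ent)
    (hι : ∀ (y : Fn 𝒜) j, ∀ a ∈ 𝒜 j, ∀ b ∈ 𝒜 j, b ≠ 0 →
      (y : FractionRing S) = algebraMap S _ a / algebraMap S _ b → ι y = emb (Θ a) / emb (Θ b))
    (s : Fin 4 → Fin 4 → ℂ) (hs : ∀ (k : ℕ) (y : Fin k → Fin 3 → Fn 𝒜),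
      σ = ∑ i, y i 0 • ExteriorAlgebra.ιMulti (Fn 𝒜) 2
        ![KaehlerDifferential.D ℂ (Fn 𝒜) (y i 1), KaehlerDifferential.D ℂ (Fn 𝒜) (y i 2)] →
      ∑ i, ι (y i 0) • Dict.wd pd (ι (y i 1)) (ι (y i 2)) = fun i j => algebraMap ℂ M (s i j))
    (z l l' : V) {φ : ℝ × ℝ → Pt 𝒜}
    (hφ : ∀ (v : ℝ × ℝ) a, (φ v).1 a = (Θ a).1 (z + v.1 • l + v.2 • l')) {u : ℝ × ℝ} {w : ℂ}
    (h : Dens (Along φ u) σ u w) : w = ∑ i, ∑ j, l i * l' j * s i j := by
  obtain ⟨k, y, F, hF, e, rfl⟩ := h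
  have hs' := hs k y e
  set b := z + u.1 • l + u.2 • l' with hb
  let T : ℝ × ℝ →L[ℝ] V := (ContinuousLinearMap.fst ℝ ℝ ℝ).smulRight l +
    (ContinuousLinearMap.snd ℝ ℝ ℝ).smulRight l'
  have hT : HasFDerivAt (fun v : ℝ × ℝ => z + v.1 • l + v.2 • l') T u := by
    simp only [add_assoc]
    exact T.hasFDerivAt.const_add z
  have key : ∀ i t, ι (y i t) ∈ Loc b ∧ F i t u = val (ι (y i t)) b ∧
      fderiv ℝ (F i t) u (1, 0) = val (dv l (ι (y i t))) b ∧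
      fderiv ℝ (F i t) u (0, 1) = val (dv l' (ι (y i t))) b := fun i t => by
    obtain ⟨j, a, ha, c, hc, h1, h2, h3⟩ := hF i t
    have c0 : c ≠ 0 := fun e => h1 (by rw [e, map_zero])
    rw [hφ] at h1
    have hd : DifferentiableAt ℂ (fun x => (Θ a).1 x / (Θ c).1 x) b :=
      diff_div ((Θ a).diff b) ((Θ c).diff b) h1
    have hF' : F i t = fun v : ℝ × ℝ => (fun x => (Θ a).1 x / (Θ c).1 x)
        (z + v.1 • l + v.2 • l') := funext fun v => by rw [h2, hφ, hφ]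
    rw [hι _ j a ha c hc c0 h3, val_dv _ h1, val_dv _ h1, val_div _ h1, hF',
      fderiv_comp_real hd hT.differentiableAt, fderiv_comp_real hd hT.differentiableAt, hT.fderiv]
    exact ⟨div_mem_Loc _ h1, rfl, by simp [T], by simp [T]⟩
  let x : Fin k → Fin 3 → Loc b := fun i t => ⟨_, (key i t).1⟩
  let d : V → Fin k → Fin 3 → Loc b := fun v i t => ⟨_, dv_mem (key i t).1 v⟩
  have e1 : ((∑ i, x i 0 * (d l i 1 * d l' i 2 - d l' i 1 * d l i 2) : Loc b) : M) =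
      algebraMap ℂ M (∑ i, ∑ j, l i * l' j * s i j) := by
    have h1 : ∀ i j, ∑ a, ι (y a 0) * Dict.wd pd (ι (y a 1)) (ι (y a 2)) i j =
        algebraMap ℂ M (s i j) := fun i j => by
      simpa [Finset.sum_apply] using congrFun (congrFun hs' i) j
    simp only [map_sum, map_mul, ← h1, Finset.mul_sum]
    rw [Finset.sum_congr rfl fun i _ => Finset.sum_comm, Finset.sum_comm,
      AddSubmonoidClass.coe_finsetSum]
    refine Finset.sum_congr rfl fun a _ => ?_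
    refine (TwoF.ap_wd _ _ _ l l').symm.trans ?_
    simp only [TwoF.ap, Algebra.smul_def, map_mul]
    rfl
  have e2 := congrArg (fun m => val m b) e1
  simp only [val_const] at e2
  rw [← e2, ← evL_apply, map_sum]
  refine Finset.sum_congr rfl fun i _ => ?_
  rw [jac, (key i 0).2.1, (key i 1).2.2.1, (key i 1).2.2.2, (key i 2).2.2.1, (key i 2).2.2.2]
  simp only [map_mul, map_sub, evL_apply, x, d]

end

end Pool.Agent.Lib.MP_d3d358_ag.G
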