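import Pool.Agent.Lib.MP_d3d358_ag.G.GeoKD
import Pool.Agent.Lib.MP_d3d358_ag.G.PerA
import Pool.Agent.Lib.MP_d3d358_ag.Var.DictM
import Pool.Agent.Lib.MP_d3d358_ag.Var.MatOf

/-! The two period tests for the generalised Kummer fourfold. -/

set_option autoImplicit false

namespace Pool.Agent.Lib.MP_d3d358_ag.G

open Filter Topology Set
open Pool.Agent.Lib.MP_d3d358_ag.AS (I8 pa mkT tens nrm omg Geo H Cls)
open Pool.Agent.Lib.MP_d3d358_ag.Var
open Pool.Agent.Lib.MP_cd184e_ag.B (grade)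
open Pool.Agent.Lib.MP_9ff3e7_ag.F (Gen1 Pt Fn loc)

noncomputable section

variable {A : Sf} {S : Type} [CommRing S] [Algebra ℂ S] {𝒜 : ℕ → Submodule ℂ S}
  [GradedAlgebra 𝒜] {m₁ m₂ m : ℕ} (D : Seg 𝒜 (Lam A) (Fin m₁) (Fin m₂))
  (e : Fin m ≃ Fin m₁ × Fin m₂) {N : V → (Fin 2 → ℂ) →L[ℂ] Fin m₁ → ℂ}

/-- the points over a point of the mirror -/
theorem exists_exc_pt (cN : Continuous N)
    (hN : ∀ z, (fun i => (D.f i).1 z) = N z (crd 0 z - crd 1 z)) {z : V} (hz : crd 0 z = crd 1 z)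
    {δ : Fin 2 → ℂ} (hδ : N z δ ≠ 0) :
    ∃ p : Pt 𝒜, vec (D.se e) p = tens e (N z δ) fun j => (D.g j).1 z := by
  have c1 : Continuous fun c : ℂ => z + c • geoN δ := by fun_prop
  have c2 : Continuous fun c : ℂ =>
      tens e (N (z + c • geoN δ) δ) fun j => (D.g j).1 (z + c • geoN δ) :=
    (PiLp.continuous_toLp 2 _).comp (continuous_pi fun k =>
      ((continuous_apply _).comp ((cN.comp c1).clm_apply continuous_const)).mul
        ((D.g _).cont.comp c1))
  refine D.exists_vec_of_tendsto e (l := 𝓝[≠] (0 : ℂ)) (c := fun c => c⁻¹)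
    (z := fun c => z + c • geoN δ) (fun h => hδ (funext fun i => ?_)) ?_
  · obtain ⟨j, hj⟩ := D.bpf z
    have := congrArg (fun v : EuclideanSpace ℂ (Fin m) => v (e.symm (i, j))) h
    simpa [tens, hj] using this
  · have h0 := (c2.tendsto 0).mono_left (nhdsWithin_le_nhds (s := {0}ᶜ))
    rw [zero_smul, add_zero] at h0
    refine h0.congr' (eventually_nhdsWithin_of_forall fun c (hc : c ≠ 0) => ?_)
    have h1 : crd 0 (z + c • geoN δ) - crd 1 (z + c • geoN δ) = c • δ := by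
      rw [map_add, map_add, map_smul, map_smul, crd_geoN_zero, crd_geoN_one, hz]
      module
    ext k
    have h2 := congrFun (hN (z + c • geoN δ)) (e k).1
    rw [h1, map_smul] at h2
    simp [tens, Seg.tv, h2, mul_assoc, hc]

/-- the family of points over a point of the mirror -/
theorem exists_exc (cN : Continuous N)
    (hN : ∀ z, (fun i => (D.f i).1 z) = N z (crd 0 z - crd 1 z)) (p₀ : Pt 𝒜) {z : V}
    (hz : crd 0 z = crd 1 z) : ∃ p : (Fin 2 → ℂ) → S →ₐ[ℂ] ℂ,
      (∀ δ k, p δ (D.se e k) = N z δ (e k).1 * (D.g (e k).2).1 z) ∧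
      (∀ a, ContDiff ℂ (⊤ : ℕ∞) fun δ => p δ a) ∧
      ∀ (c : ℂ) δ j, ∀ a ∈ 𝒜 j, p (c • δ) a = c ^ j * p δ a := by
  have h1 : ∀ δ, ∃ p : S →ₐ[ℂ] ℂ, ∀ k, p (D.se e k) = N z δ (e k).1 * (D.g (e k).2).1 z :=
    fun δ => by
    by_cases hδ : N z δ = 0
    · exact ⟨p₀.1.comp (sclH 𝒜 0), fun k => by simp [sclH_eq _ (D.se_mem e k), hδ]⟩
    · obtain ⟨p, hp⟩ := exists_exc_pt D e cN hN hz hδ
      exact ⟨p.1, fun k => congrArg (fun v : EuclideanSpace ℂ (Fin m) => v k) hp⟩
  choose p hp using h1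
  refine ⟨p, hp, fun a => ?_, fun c δ j a ha => ?_⟩
  · have ha : a ∈ Algebra.adjoin ℂ (range (D.se e)) := D.adjoin_se e ▸ Algebra.mem_top
    induction ha using Algebra.adjoin_induction with
    | mem a ha =>
      obtain ⟨k, rfl⟩ := ha
      simp only [hp]
      exact (contDiff_pi.1 (N z).contDiff _).mul contDiff_const
    | algebraMap r => simpa using contDiff_const
    | add a b _ _ ha hb => simpa using ha.add hb
    | mul a b _ _ ha hb => simpa using ha.mul hb
  · have : p (c • δ) = (p δ).comp (sclH 𝒜 c) := AlgHom.ext_of_adjoin_eq_top (D.adjoin_se e) (by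
      rintro _ ⟨k, rfl⟩
      simp [sclH_eq _ (D.se_mem e k), hp, mul_assoc])
    simp [this, sclH_eq _ ha]

theorem prj_nrm (x₀ : Cx 𝒜) (p : Pt 𝒜) : prj (D.se e) x₀ (nrm (vec (D.se e) p)) = cx p :=
  prj_smul_vec (D.se_mem e) (D.adjoin_se e) x₀ (inv_ne_zero (Complex.ofReal_ne_zero.2
    (norm_ne_zero_iff.2 (vec_ne (D.se_mem e) (D.adjoin_se e) p)))) p

theorem sum_sig (l l' : V) :
    ∑ i, ∑ j, l i * l' j * LiouM.sig (TwoF.ee i) (TwoF.ee j) = LiouM.sig l l' := by
  simp [Fin.sum_univ_four, LiouM.sig, TwoF.ee]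
  ring

theorem int_const (a : ℂ) : ∫ _ in Icc (0 : ℝ × ℝ) 1, a = a := by
  rw [MeasureTheory.setIntegral_const, MeasureTheory.Measure.real, Icc_prod_eq,
    MeasureTheory.Measure.volume_eq_prod, MeasureTheory.Measure.prod_prod]
  simp

theorem perOK_of [IsDomain S] (x₀ : Cx 𝒜) (cN : Continuous N)
    (hN : ∀ z, (fun i => (D.f i).1 z) = N z (crd 0 z - crd 1 z))
    (iN : ∀ z, crd 0 z = crd 1 z → crd 0 z - crd 2 z ∉ A.toLat.L → Function.Injective (N z))
    {σ : Form (Fn 𝒜)} (hσ : Symp (fun p : Pt 𝒜 => loc p) σ) (ι : Fn 𝒜 →ₐ[ℂ] M)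
    (hι : ∀ (y : Fn 𝒜) j, ∀ a ∈ 𝒜 j, ∀ b ∈ 𝒜 j, b ≠ 0 →
      (y : FractionRing S) = algebraMap S _ a / algebraMap S _ b →
        ι y = emb (D.Θ a) / emb (D.Θ b)) (hm : MatOf ι σ (sig zc)) :
    PerOK (per A.toLat) (Period σ) e (fun t i => (D.f i).1 (zt A.toLat t))
      (fun t j => (D.g j).1 (zt A.toLat t)) (prj (D.se e) x₀) fun t => N (zt A.toLat t) := by
  rintro c ⟨ε, hε, h⟩
  refine ⟨ε, 1, hε, one_ne_zero, fun t l l' φ hφ => ?_, fun t α φ h1 h2 hα α0 hφ => ?_⟩
  · let b : ℝ × ℝ → V := fun v =>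
      zt A.toLat t + v.1 • zt A.toLat (fun i => l i) + v.2 • zt A.toLat fun i => l' i
    have hb : ∀ v : ℝ × ℝ, zt A.toLat (fun i => t i + v.1 * l i + v.2 * l' i) = b v :=
      fun v => zt_aff A.toLat t _ _ v.1 v.2
    choose p hp hv using fun v : ℝ × ℝ => D.exists_vec e (z := b v)
      (hb v ▸ (free_iff A.toLat _).1 (hφ v.1 v.2).1)
    choose w hw using exists_dens hσ p
    have hw' : w = fun _ => omg (per A.toLat) (fun i => l i) fun i => l' i := funext fun u => by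
      rw [dens_lin ι D.Θ hι _ (fun k y hy => ((hm k y).1 hy).trans
        (funext fun i => funext fun j => Dict.sig_zc i j)) _ _ _ hp (hw u), sum_sig, omg_eq]
    have key := h φ p w (fun a => ?_) (fun u => ?_) hw
    · rw [hw', int_const, ← one_mul (omg _ _ _)] at key
      exact key
    · simp only [hp]
      have : ContDiff ℝ (⊤ : ℕ∞) (D.Θ a).1 := contDiff_iff_contDiffAt.2 fun z =>
        (((D.Θ a).an z).contDiffAt).restrict_scalars ℝ
      exact this.comp (by fun_prop)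
    · refine ((hφ u.1 u.2).2.trans ?_).trans (prj_nrm D e x₀ (p u))
      rw [hv, ← hb]; rfl
  · have hz := (pa_eq_iff' A.toLat t 0 1).1 h1
    have hi := iN _ hz fun h' => h2 ((pa_eq_iff A.toLat t 0 2).2 h')
    obtain ⟨q, hq, hd, hh⟩ := exists_exc D e cN hN (rep x₀) hz
    choose p hp using fun u => exists_exc_pt D e cN hN hz (δ := α u)
      fun h0 => α0 u (hi (h0.trans (map_zero _).symm))
    have hpq : ∀ u, (p u).1 = q (α u) := fun u =>
      AlgHom.ext_of_adjoin_eq_top (D.adjoin_se e) (by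
        rintro _ ⟨k, rfl⟩
        exact (congrArg (fun v : EuclideanSpace ℂ (Fin m) => v k) (hp u)).trans (hq _ k).symm)
    choose w hw using exists_dens hσ p
    have hw' : w = fun _ => 0 := funext fun u =>
      dens_exc q (fun a => (hd a).differentiable (by simp)) hh
        (hα.differentiable (by simp) u) (α0 u) hpq (hw u)
    have key := h φ p w (fun a => ?_) (fun u => ?_) hw
    · rw [hw', int_const, zero_smul] at key
      exact key
    · simp only [hpq]
      exact ((hd a).restrict_scalars ℝ).comp hα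
    · refine ((hφ u.1 u.2).trans ?_).trans (prj_nrm D e x₀ (p u))
      rw [hp]

/-- the analytic interface for `X` -/
theorem geoX (hA : Good A) (h : Gen1 (grade (X hA))) {σ : Form (Fn (grade (X hA)))}
    (hσ : Symp (fun p : Pt (grade (X hA)) => loc p) σ) (hm : MatOf (iota (X hA)) σ (sig zc)) :
    Nonempty (@Geo (per A.toLat) (Cx (grade (X hA))) (metricCx h) (Period σ)) := by
  obtain ⟨q, -⟩ := (seg hA).exists_isQ (free_nonempty hA)
  exact geo hA h (q 0) fun N c1 c2 c3 _ => perOK_of (seg hA) _ (q 0) c1 c2 c3 hσ _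
    (fun y j a _ b hb b0 e => (iota_eq hb b0 e).trans
      (congrArg₂ (· / ·) (emb_thX hA a).symm (emb_thX hA b).symm)) hm

end

end Pool.Agent.Lib.MP_d3d358_ag.G
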