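import Pool.Agent.Lib.MP_d3d358_ag.AS.KumB
import Pool.Agent.Lib.MP_d3d358_ag.Var.MirrorK
import Pool.Agent.Lib.MP_d3d358_ag.Var.LiouM

/-! Real lattice coordinates on `V`. -/

set_option autoImplicit false

namespace Pool.Agent.Lib.MP_d3d358_ag.G

open Topology Set
open Pool.Agent.Lib.MP_d3d358_ag.Th (Lat alt eta)
open Pool.Agent.Lib.MP_d3d358_ag.Var (V gv eq_of_crd crd_tri_two chi_cube chi_zero)
open Pool.Agent.Lib.MP_d3d358_ag.AS (I8 pa sm mkT omg Conv pa_sm pa_mkT KumB_sm_mkT)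

noncomputable section

variable (A : Lat 2)

/-- the point of `V` with real lattice coordinates `t` -/
def zt (t : I8 → ℝ) : V := tri (AS.cx (per A) (pa 0 t)) (AS.cx (per A) (pa 1 t))

theorem cx_per (t : Fin 4 → ℝ) : AS.cx (per A) t = A.bas.equivFun.symm t := by
  rw [Module.Basis.equivFun_symm_apply]
  funext a
  simp [AS.cx, per, Matrix.mulVec, dotProduct, mul_comm]

theorem cx_sub (t t' : Fin 4 → ℝ) :
    AS.cx (per A) (t - t') = AS.cx (per A) t - AS.cx (per A) t' := by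
  rw [cx_per, cx_per, cx_per]; exact map_sub _ _ _

theorem crd_zt (k : Fin 3) (t : I8 → ℝ) : crd k (zt A t) = AS.cx (per A) (pa k t) := by
  fin_cases k
  · exact crd_tri_zero _ _
  · exact crd_tri_one _ _
  · refine (crd_tri_two _ _).trans ?_
    change _ = AS.cx (per A) (-pa 0 t - pa 1 t)
    rw [cx_per, cx_per, cx_per]
    exact ((map_sub A.bas.equivFun.symm _ _).trans (by rw [map_neg A.bas.equivFun.symm])).symm

/-- the coordinates as a linear homeomorphism -/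
def ztL : (I8 → ℝ) ≃L[ℝ] V :=
  ((LinearEquiv.sumArrowLequivProdArrow (Fin 4) (Fin 4) ℝ ℝ).trans
    ((A.bas.equivFun.symm.prodCongr A.bas.equivFun.symm).trans
      (crdE.symm.restrictScalars ℝ))).toContinuousLinearEquiv

@[simp] theorem ztL_apply (t : I8 → ℝ) : ztL A t = zt A t := by
  rw [zt, cx_per, cx_per]; rfl

theorem exists_ztL : ∃ e : (I8 → ℝ) ≃L[ℝ] V, ∀ t, e t = zt A t := ⟨ztL A, ztL_apply A⟩

theorem continuous_zt : Continuous (zt A) := (ztL A).continuous.congr (ztL_apply A)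

theorem zt_surj : Function.Surjective (zt A) := fun z =>
  ⟨(ztL A).symm z, by rw [← ztL_apply, ContinuousLinearEquiv.apply_symm_apply]⟩

theorem map_zt_nhds (t : I8 → ℝ) : Filter.map (zt A) (𝓝 t) = 𝓝 (zt A t) := by
  rw [← funext (ztL_apply A)]
  exact (ztL A).toHomeomorph.map_nhds_eq t

theorem zt_add (t t' : I8 → ℝ) : zt A (t + t') = zt A t + zt A t' := by
  simp only [← ztL_apply, map_add]

theorem zt_sub (t t' : I8 → ℝ) : zt A (t - t') = zt A t - zt A t' := by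
  simp only [← ztL_apply, map_sub]

theorem zt_smul (c : ℝ) (t : I8 → ℝ) : zt A (c • t) = c • zt A t := by
  simp only [← ztL_apply, map_smul]

theorem zt_aff (t l l' : I8 → ℝ) (u u' : ℝ) :
    zt A (fun i => t i + u * l i + u' * l' i) = zt A t + u • zt A l + u' • zt A l' := by
  rw [← zt_smul, ← zt_smul, ← zt_add, ← zt_add]; rfl

theorem cx_inj (t : Fin 4 → ℝ) (h : AS.cx (per A) t = 0) : t = 0 := by
  rw [cx_per] at h
  exact A.bas.equivFun.symm.map_eq_zero_iff.1 h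

theorem mkT_eq_zero {ι : Type} (t : ι → ℝ) : mkT t = 0 ↔ ∀ i, ∃ n : ℤ, (n : ℝ) = t i :=
  funext_iff.trans (forall_congr' fun i => (AddCircle.coe_eq_zero_iff (p := (1 : ℝ))).trans
    (by simp))

theorem mkT_sub {ι : Type} (t t' : ι → ℝ) : mkT (t - t') = mkT t - mkT t' :=
  funext fun i => AddCircle.coe_sub 1 (t i) (t' i)

theorem cx_mem (t : Fin 4 → ℝ) : AS.cx (per A) t ∈ A.L ↔ mkT t = 0 := by
  rw [cx_per, mkT_eq_zero, Lat.L, A.bas.mem_span_iff_repr_mem ℤ]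
  refine forall_congr' fun i => ?_
  rw [← Module.Basis.equivFun_apply, LinearEquiv.apply_symm_apply]
  rfl

theorem zt_mem (t : I8 → ℝ) : zt A t ∈ (lat3 A).L ↔ mkT t = 0 := by
  rw [mem_lat3', zt, crd_tri_zero, crd_tri_one, cx_mem, cx_mem, mkT_eq_zero, mkT_eq_zero,
    mkT_eq_zero, Sum.forall]
  rfl

theorem pa_eq_iff (t : I8 → ℝ) (i j : Fin 3) :
    pa i (mkT t) = pa j (mkT t) ↔ crd i (zt A t) - crd j (zt A t) ∈ A.L := by
  rw [crd_zt, crd_zt, ← cx_sub, cx_mem, mkT_sub, sub_eq_zero, pa_mkT, pa_mkT]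

theorem pa_eq_iff' (t : I8 → ℝ) (i j : Fin 3) :
    pa i t = pa j t ↔ crd i (zt A t) = crd j (zt A t) := by
  rw [crd_zt, crd_zt, ← sub_eq_zero (a := AS.cx _ _), ← cx_sub, ← sub_eq_zero]
  exact ⟨fun h => by rw [h, cx_per]; exact map_zero _, cx_inj A _⟩

/-- `prm` on `Fin 3` -/
def pm (γ : Var.G) : Fin 3 → Fin 3 := prm γ

theorem crd_pm (k : Fin 3) (γ : Var.G) (z : V) : crd k (gv γ z) = crd (pm γ k) z := crd_gv k γ z

theorem pm_perm : (∀ s : Equiv.Perm (Fin 3), ∃ γ : Var.G, ∀ k, pm γ k = s k) ∧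
    ∀ γ : Var.G, ∃ s : Equiv.Perm (Fin 3), ∀ k, pm γ k = s k := by
  decide

theorem zt_sm {s : Equiv.Perm (Fin 3)} {γ : Var.G} (h : ∀ k, pm γ k = s k) (t : I8 → ℝ) :
    zt A (sm s t) = gv γ (zt A t) :=
  have key (k : Fin 3) : crd k (zt A (sm s t)) = crd k (gv γ (zt A t)) := by
    rw [crd_zt, crd_pm, pa_sm, crd_zt, h]
  eq_of_crd (key 0) (key 1)

theorem orbit_iff (t t' : I8 → ℝ) : (∃ s, mkT t' = sm s (mkT t)) ↔
    ∃ γ, ∃ l ∈ (lat3 A).L, zt A t' = gv γ (zt A t) + l := by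
  have key : ∀ s γ, (∀ k, pm γ k = s k) → (mkT t' = sm s (mkT t) ↔
      ∃ l ∈ (lat3 A).L, zt A t' = gv γ (zt A t) + l) := fun s γ h => by
    rw [KumB_sm_mkT, ← sub_eq_zero, ← mkT_sub, ← zt_mem A, zt_sub, zt_sm A h]
    exact ⟨fun e => ⟨_, e, by abel⟩, fun ⟨l, hl, e⟩ => by rwa [e, add_sub_cancel_left]⟩
  constructor
  · rintro ⟨s, e⟩
    obtain ⟨γ, h⟩ := pm_perm.1 s
    exact ⟨γ, (key s γ h).1 e⟩
  · rintro ⟨γ, e⟩
    obtain ⟨s, h⟩ := pm_perm.2 γ
    exact ⟨s, (key s γ h).2 e⟩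

theorem pm_fix : (∀ γ : Var.G, γ ≠ 1 → ∃ k, k ≠ pm γ k) ∧
    ∀ i j : Fin 3, i ≠ j → ∃ γ : Var.G, γ ≠ 1 ∧ pm γ i = j ∧ pm γ j = i ∧
      ∀ k, k = i ∨ k = j ∨ pm γ k = k := by
  decide

theorem free_iff_crd (z : V) : z ∈ Var.Free (lat3 A).L.toAddSubgroup ↔
    ∀ i j : Fin 3, i ≠ j → crd i z - crd j z ∉ A.L := by
  constructor
  · intro h i j hij e
    obtain ⟨γ, h1, hi, hj, hk⟩ := pm_fix.2 i j hij
    refine h1 (h γ (mem_lat3.2 fun k : Fin 3 => ?_))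
    rw [map_sub, crd_pm]
    rcases hk k with rfl | rfl | hk
    · rwa [hi]
    · rw [hj, ← neg_sub]; exact neg_mem e
    · rw [hk, sub_self]; exact zero_mem _
  · intro h γ e
    by_contra h1
    obtain ⟨k, hk⟩ := pm_fix.1 γ h1
    have := mem_lat3.1 e k
    rw [map_sub, crd_pm] at this
    exact h _ _ hk this

theorem free_iff (t : I8 → ℝ) :
    AS.Free (mkT t) ↔ zt A t ∈ Var.Free (lat3 A).L.toAddSubgroup := by
  rw [free_iff_crd]
  exact forall₃_congr fun i j _ => not_congr (pa_eq_iff A t i j)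

theorem not_free {z : V} (h : crd 0 z = crd 1 z) : z ∉ Var.Free (lat3 A).L.toAddSubgroup :=
  fun e => (free_iff_crd A z).1 e 0 1 (by decide) (by
    rw [show crd (0 : Fin 3) z - crd (1 : Fin 3) z = 0 from sub_eq_zero.2 h]; exact zero_mem _)

theorem sig_crd (z w : V) : Var.LiouM.sig z w =
    ∑ a : Fin 3, (crd a z 0 * crd a w 1 - crd a z 1 * crd a w 0) := by
  have h := chi_one_quad
  have h3 := chi_cube 1
  have hs := s3_sq
  rw [Fin.sum_univ_three]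
  change _ = crd 0 z 0 * crd 0 w 1 - crd 0 z 1 * crd 0 w 0 +
    (crd 1 z 0 * crd 1 w 1 - crd 1 z 1 * crd 1 w 0) + (crd 2 z 0 * crd 2 w 1 - crd 2 z 1 * crd 2 w 0)
  simp only [Var.LiouM.sig, crd_zero, crd_one, neg_zero, chi_zero, chi_two, chi_neg_one, chi_neg_two]
  generalize Var.chi 1 = o at h h3 ⊢
  grind

theorem omg_eq (l l' : I8 → ℝ) : omg (per A) l l' = Var.LiouM.sig (zt A l) (zt A l') := by
  simp only [sig_crd, crd_zt, omg]

variable {A} {B : Lat 2} {z : Fin 3 → ℂ}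

theorem im_of_dual (h : Dual A B) (hP : per A = !![1, z 0, 0, z 1; 0, z 1, 5, z 2]) :
    per B = !![-z 0, 1, -z 1 / 5, 0; -z 1, 0, -z 2 / 5, 1] ∧
      (z 0).im = 1 ∧ (z 1).im = 0 ∧ (z 2).im = 1 := by
  have e : ∀ (a : Fin 2) (i : Fin 4), A.bas i a =
      (!![1, z 0, 0, z 1; 0, z 1, 5, z 2] : Matrix (Fin 2) (Fin 4) ℂ) a i :=
    fun a i => congrFun (congrFun hP a) i
  have b0 : ∀ a, B.bas (0 : Fin 4) a = -A.bas (1 : Fin 4) a := fun a => by rw [h.e1]; simp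
  have b1 : ∀ a, B.bas (1 : Fin 4) a = A.bas (0 : Fin 4) a := fun a => by rw [h.e0]
  have b2 : ∀ a, B.bas (2 : Fin 4) a = -A.bas (3 : Fin 4) a / 5 := fun a => by
    rw [h.e3]; simp
  have b3 : ∀ a, B.bas (3 : Fin 4) a = A.bas (2 : Fin 4) a / 5 := fun a => by
    rw [h.e2]; simp
  have d0 := h.dual 0 0
  have d1 := h.dual 0 2
  have d2 := h.dual 2 2
  simp [alt, eta, b0, b2, e, map_ofNat] at d0 d1 d2
  refine ⟨?_, d0, d1, by linarith⟩
  ext a i
  fin_cases i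
  · refine (b0 a).trans ?_; rw [e]; fin_cases a <;> simp
  · refine (b1 a).trans ?_; rw [e]; fin_cases a <;> simp
  · refine (b2 a).trans ?_; rw [e]; fin_cases a <;> simp
  · refine (b3 a).trans ?_; rw [e]; fin_cases a <;> simp

theorem conv_left (h : Dual A B) (hP : per A = !![1, z 0, 0, z 1; 0, z 1, 5, z 2]) :
    Conv (per A) := by
  obtain ⟨-, h0, h1, h2⟩ := im_of_dual h hP
  rw [hP]
  intro s hs t e
  have e0 := congrFun e 0
  have e1 := congrFun e 1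
  simp [AS.cx, Matrix.mulVec, dotProduct, Fin.sum_univ_four, Complex.ext_iff, h0, h1, h2] at e0 e1
  obtain ⟨a0, rfl1⟩ := e0
  obtain ⟨a1, rfl3⟩ := e1
  rw [rfl1, rfl3] at a0 a1
  have p : 0 < (1 - s) * 5 + s := by linarith [hs.2]
  funext i
  fin_cases i
  · simpa using a0
  · exact rfl1
  · simpa [p.ne'] using a1
  · exact rfl3

theorem conv_right (h : Dual A B) (hP : per A = !![1, z 0, 0, z 1; 0, z 1, 5, z 2]) :
    Conv (Complex.I • per B) := by
  obtain ⟨hQ, h0, h1, h2⟩ := im_of_dual h hP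
  rw [hQ]
  intro s hs t e
  have e0 := congrFun e 0
  have e1 := congrFun e 1
  simp [AS.cx, Matrix.mulVec, dotProduct, Fin.sum_univ_four, Complex.ext_iff, h0, h1, h2] at e0 e1
  obtain ⟨rfl0, a0⟩ := e0
  obtain ⟨a2, a1⟩ := e1
  have rfl2 : t 2 = 0 := a2.resolve_left (by intro e; linarith [hs.1, hs.2])
  rw [rfl0, rfl2] at a0 a1
  funext i
  fin_cases i
  · exact rfl0
  · simpa using a0
  · exact rfl2
  · simpa using a1

end

end Pool.Agent.Lib.MP_d3d358_ag.G
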